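import Pool.Agent.J4H42.ZS.Index

/-!
# Long zero-sum sequences that do not split into many blocks have small weight
-/

set_option autoImplicit false
set_option linter.unusedSectionVars false

namespace Pool.Agent.J4H42.ZS

open Finset Pool.Agent.T2H37.CI Pool.Agent.T2H37.FB

variable {m : ℕ} {ι : Type*} [DecidableEq ι] {b : ι → ZMod m}

lemma IsPart.sum_blks {S : Finset ι} {q : ℕ} {g : ι → ℕ} (h : IsPart b S q g) (f : ι → ℕ) :
    ∑ j ∈ range q, ∑ i ∈ blks S g {j}, f i = ∑ i ∈ S, f i := by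
  rw [← sum_fiberwise_of_maps_to (t := range q) (g := g) (fun i hi => mem_range.2 (h.1 i hi))]
  refine sum_congr rfl fun j _ => ?_
  refine sum_congr ?_ fun _ _ => rfl
  ext i
  simp [blks]

lemma IsPart.card_blks {S : Finset ι} {q : ℕ} {g : ι → ℕ} (h : IsPart b S q g) :
    ∑ j ∈ range q, #(blks S g {j}) = #S := by
  have h1 := h.sum_blks (fun _ => 1)
  simpa using h1

section

variable {B₁ R : Finset ι} {p : ℕ} {g : ι → ℕ}

/-- the maximality of the first block in the partition -/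
def Maxi (b : ι → ZMod m) (B₁ R : Finset ι) (p : ℕ) : Prop :=
  ∀ P ⊆ B₁ ∪ R, P.Nonempty → ∑ i ∈ P, b i = 0 → Split b ((B₁ ∪ R) \ P) p → #P ≤ #B₁

lemma blk_le (hd : Disjoint B₁ R) (hg : IsPart b R p g) (h1 : B₁.Nonempty)
    (h1' : ∑ i ∈ B₁, b i = 0) (hmax : Maxi b B₁ R p) {j : ℕ} (hj : j < p) :
    #(blks R g {j}) ≤ #B₁ := by
  obtain ⟨h2, h3⟩ := hg.single hj
  refine hmax _ ((blks_sub _ _ _).trans subset_union_right) h2 h3 ?_
  have h4 := hg.replace hd {j} (singleton_subset_iff.2 (mem_range.2 hj))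
    (T := blks R g {j}) (p := 1) subset_union_right (by
      rw [union_sdiff_cancel_right (disjoint_of_subset_right (blks_sub _ _ _) hd)]
      exact split_one h1 h1')
  rw [card_singleton] at h4
  have h5 : 1 + (p - 1) = p := by omega
  rwa [h5] at h4

lemma two_max (hd : Disjoint B₁ R) (hg : IsPart b R p g) (h1' : ∑ i ∈ B₁, b i = 0)
    (hmax : Maxi b B₁ R p) {j : ℕ} (hj : j < p) (P : Finset ι)
    (hP : P ⊆ B₁ ∪ blks R g {j}) (hPn : P.Nonempty) (hPs : ∑ i ∈ P, b i = 0)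
    (hne : P ≠ B₁ ∪ blks R g {j}) : #P ≤ #B₁ := by
  have hdj : Disjoint B₁ (blks R g {j}) := disjoint_of_subset_right (blks_sub _ _ _) hd
  refine hmax _ (hP.trans (union_subset_union_right (blks_sub _ _ _))) hPn hPs ?_
  have h3 : ∑ i ∈ (B₁ ∪ blks R g {j}) \ P, b i = 0 := by
    have := sum_sdiff (f := b) hP
    rw [hPs, add_zero, sum_union hdj, h1', (hg.single hj).2, add_zero] at this
    exact this
  have h4 := hg.replace hd {j} (singleton_subset_iff.2 (mem_range.2 hj))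
    (T := P) (p := 1) hP (split_one (by
      rw [nonempty_iff_ne_empty]
      intro h
      rw [sdiff_eq_empty_iff_subset] at h
      exact hne (Subset.antisymm hP h)) h3)
  rw [card_singleton] at h4
  have h5 : 1 + (p - 1) = p := by omega
  rwa [h5] at h4

lemma first_long (hd : Disjoint B₁ R) (hg : IsPart b R p g) (h1 : B₁.Nonempty)
    (h1' : ∑ i ∈ B₁, b i = 0) (hmax : Maxi b B₁ R p)
    (hlen : (p + 1) * (m + 1) + 2 ≤ 2 * #(B₁ ∪ R)) : m + 2 ≤ 2 * #B₁ := by
  by_contra hcon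
  have h2 : ∑ j ∈ range p, #(blks R g {j}) ≤ ∑ j ∈ range p, #B₁ :=
    sum_le_sum fun j hj => blk_le hd hg h1 h1' hmax (mem_range.1 hj)
  rw [hg.card_blks, sum_const, card_range, smul_eq_mul] at h2
  rw [card_union_of_disjoint hd] at hlen
  have h3 : (p + 1) * (2 * #B₁) ≤ (p + 1) * (m + 1) := Nat.mul_le_mul_left _ (by omega)
  nlinarith

lemma atom_blk (hd : Disjoint B₁ R) (hg : IsPart b R p g) (h1 : B₁.Nonempty)
    (h1' : ∑ i ∈ B₁, b i = 0) (hns : ¬ Split b (B₁ ∪ R) (p + 2)) {j : ℕ} (hj : j < p) :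
    Atom b (blks R g {j}) := by
  obtain ⟨h2, h3⟩ := hg.single hj
  refine (split_two_or_atom h2 h3).resolve_left fun h4 => ?_
  refine hg.local_max hd hns {j} (singleton_subset_iff.2 (mem_range.2 hj)) (p := 3)
    (by rw [card_singleton]) ?_
  exact split_union (disjoint_of_subset_right (blks_sub _ _ _) hd) (split_one h1 h1') h4

variable [NeZero m]

theorem core (hm : 3 ≤ m) (hd : Disjoint B₁ R) (h0 : ∀ i ∈ B₁ ∪ R, b i ≠ 0)
    (hg : IsPart b R p g) (hns : ¬ Split b (B₁ ∪ R) (p + 2)) (h1 : Atom b B₁)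
    (w1 : ∑ i ∈ B₁, (b i).val = m) (hlen : (p + 1) * (m + 1) + 2 ≤ 2 * #(B₁ ∪ R))
    (hmax : Maxi b B₁ R p) : ∑ i ∈ B₁ ∪ R, (b i).val = (p + 1) * m := by
  have hL1 := first_long hd hg h1.ne h1.sum hmax hlen
  have h01 : ∀ i ∈ B₁, b i ≠ 0 := fun i hi => h0 i (mem_union_left _ hi)
  have h0R : ∀ i ∈ R, b i ≠ 0 := fun i hi => h0 i (mem_union_right _ hi)
  have hat := fun j hj => atom_blk hd hg h1.ne h1.sum hns (j := j) hj
  have hcard2 : ∀ j < p, 2 ≤ #(blks R g {j}) := by
    intro j hj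
    by_contra hcon
    have h2 := (hat j hj).ne
    rw [← card_pos] at h2
    obtain ⟨i, hi⟩ := card_eq_one.1 (by omega : #(blks R g {j}) = 1)
    have h3 := (hat j hj).sum
    rw [hi, sum_singleton] at h3
    refine h0R i (blks_sub R g {j} ?_) h3
    rw [hi]
    exact mem_singleton_self i
  rw [sum_union hd, w1, ← hg.sum_blks]
  by_contra hW
  -- the bad blocks
  obtain ⟨j₀, hj₀, hj₀max⟩ : ∃ j₀ ∈ (range p).filter fun j => ∑ i ∈ blks R g {j}, (b i).val ≠ m,
      ∀ j ∈ (range p).filter fun j => ∑ i ∈ blks R g {j}, (b i).val ≠ m,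
        #(blks R g {j}) ≤ #(blks R g {j₀}) := by
    refine exists_max_image _ _ ?_
    rw [nonempty_iff_ne_empty]
    intro h
    apply hW
    have h2 : ∀ j ∈ range p, ∑ i ∈ blks R g {j}, (b i).val = m := by
      intro j hj
      by_contra h3
      have h4 : j ∈ (range p).filter fun j => ∑ i ∈ blks R g {j}, (b i).val ≠ m :=
        mem_filter.2 ⟨hj, h3⟩
      rw [h] at h4
      simp at h4
    rw [sum_congr rfl h2, sum_const, card_range, smul_eq_mul]
    ring
  rw [mem_filter, mem_range] at hj₀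
  obtain ⟨hj₀p, hbad⟩ := hj₀
  set B := blks R g {j₀} with hBdef
  have hBR : B ⊆ R := blks_sub _ _ _
  have hd1 : Disjoint B₁ B := disjoint_of_subset_right hBR hd
  have hns1 : ¬ Split b (B₁ ∪ B) 3 :=
    hg.local_max hd hns {j₀} (singleton_subset_iff.2 (mem_range.2 hj₀p)) (by rw [card_singleton])
  have hBle : #B ≤ #B₁ := blk_le hd hg h1.ne h1.sum hmax hj₀p
  have hB2 : 2 ≤ #B := hcard2 j₀ hj₀p
  have hBat : Atom b B := hat j₀ hj₀p
  rcases le_or_gt (m + 2) (2 * #B) with hcase | hcase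
  · -- a long bad block
    obtain ⟨h, c, hc, hcm, hBc, j, hj⟩ := hBat.exists_three hB2 (t := (m - 1) / 2) (by omega)
      (by omega) hbad
    obtain ⟨i₁, hi₁, hi₁c⟩ := good_bad h01 hd1 hc hcm hBc w1 hL1 hns1
    have hi₁j := hi₁c j
    have h2 := item_le h01 w1 hi₁
    have l1 : 2 * #B₁ = m + 2 := by omega
    have l2 : 2 * #B = m + 2 := by omega
    obtain ⟨u, hu⟩ := index_pair (b := b) hm hd1.symm hBat h1 l2 l1 (by
      intro P hP hPn hPs hPne
      rw [union_comm] at hP hPne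
      have := two_max hd hg h1.sum hmax hj₀p P hP hPn hPs hPne
      omega)
    exact hns1 (two_units hm hd1 h1 hBat (fun i hi => h0 i
      (union_subset_union_right hBR hi)) l1 l2 w1 hbad u hu)
  · -- a short bad block
    obtain ⟨t, ht⟩ : ∃ t, t = min (#B - 1) ((m - 1) / 2) := ⟨_, rfl⟩
    obtain ⟨h, c, hc, hcm, hBc, j, hj⟩ := hBat.exists_three hB2 (t := t) (by omega)
      (by omega) hbad
    have hi1 := good_bad h01 hd1 hc hcm hBc w1 hL1 hns1
    obtain ⟨i₁, hi₁, hi₁c⟩ := hi1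
    have hi₁j := hi₁c j
    have h2 := item_le h01 w1 hi₁
    have hsum : #B₁ + #B ≤ m + 1 := by omega
    -- the second long block
    obtain ⟨j₂, hj₂, hj₂l⟩ : ∃ j₂ ∈ (range p).erase j₀, m + 2 ≤ 2 * #(blks R g {j₂}) := by
      by_contra hcon
      push Not at hcon
      have h3 : ∑ j ∈ (range p).erase j₀, 2 * #(blks R g {j}) ≤
          ∑ j ∈ (range p).erase j₀, (m + 1) := by
        refine sum_le_sum fun j hj => ?_
        have := hcon j hj
        omega
      have h4 := sum_erase_add (range p) (fun j => #(blks R g {j})) (mem_range.2 hj₀p)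
      rw [hg.card_blks] at h4
      change ∑ j ∈ (range p).erase j₀, #(blks R g {j}) + #B = #R at h4
      rw [← mul_sum, sum_const, card_erase_of_mem (mem_range.2 hj₀p), card_range,
        smul_eq_mul] at h3
      rw [card_union_of_disjoint hd] at hlen
      obtain ⟨p', rfl⟩ : ∃ p', p = p' + 1 := ⟨p - 1, by omega⟩
      rw [Nat.add_sub_cancel] at h3
      have h5 : (p' + 1 + 1) * (m + 1) = p' * (m + 1) + 2 * (m + 1) := by ring
      omega
    rw [mem_erase] at hj₂
    have hj₂p := mem_range.1 hj₂.2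
    set B₂ := blks R g {j₂} with hB₂def
    have hB₂R : B₂ ⊆ R := blks_sub _ _ _
    have w2 : ∑ i ∈ B₂, (b i).val = m := by
      by_contra hcon
      have := hj₀max j₂ (mem_filter.2 ⟨hj₂.2, hcon⟩)
      change #B₂ ≤ #B at this
      omega
    have hd2 : Disjoint B₂ B := by
      rw [hB₂def, hBdef]
      exact blks_disj (disjoint_singleton.2 hj₂.1)
    have hd12 : Disjoint B₁ B₂ := disjoint_of_subset_right hB₂R hd
    have hns2 : ¬ Split b (B₁ ∪ (B₂ ∪ B)) 4 := by
      have := hg.local_max hd hns ({j₂} ∪ {j₀}) (union_subset (singleton_subset_iff.2 hj₂.2)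
        (singleton_subset_iff.2 (mem_range.2 hj₀p))) (p := 4) (by
          rw [card_union_of_disjoint (disjoint_singleton.2 hj₂.1), card_singleton, card_singleton])
      rwa [blks_union] at this
    have hi2 := good_bad (fun i hi => h0R i (hB₂R hi)) hd2 hc hcm hBc w2 hj₂l (by
      intro h3
      exact hns2 (split_union (p := 1) (q := 3) (disjoint_union_right.2 ⟨hd12, hd1⟩)
        (split_one h1.ne h1.sum) h3))
    apply hns2
    rw [← union_assoc]
    exact pair hd12 (disjoint_union_left.2 ⟨hd1, hd2⟩) (fun i hi => h0 i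
      (union_subset_union_right hB₂R hi)) w1 w2 hL1 hj₂l hc hcm hBc ⟨i₁, hi₁, hi₁c⟩ hi2

end

variable [NeZero m]

/-- scaling -/
lemma split_smul (u : (ZMod m)ˣ) (S : Finset ι) (q : ℕ) :
    Split (fun i => (u : ZMod m) * b i) S q ↔ Split b S q := by
  have hsum0 : ∀ T : Finset ι, ∑ i ∈ T, (u : ZMod m) * b i = 0 ↔ ∑ i ∈ T, b i = 0 := by
    intro T
    rw [← mul_sum, u.isUnit.mul_right_eq_zero]
  constructor
  · rintro ⟨g, hg1, hg2⟩
    exact ⟨g, hg1, fun B hB => ⟨(hg2 B hB).1, (hsum0 _).1 (hg2 B hB).2⟩⟩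
  · rintro ⟨g, hg1, hg2⟩
    exact ⟨g, hg1, fun B hB => ⟨(hg2 B hB).1, (hsum0 _).2 (hg2 B hB).2⟩⟩

/-- Long zero-sum sequences whose maximal number of blocks is `q` have weight `q * m` for a suitable
unit. -/
theorem index_max (hm : 3 ≤ m) {S : Finset ι} (h0 : ∀ i ∈ S, b i ≠ 0) {q : ℕ}
    (hs : Split b S q) (hns : ¬ Split b S (q + 1)) (hlen : q * (m + 1) + 2 ≤ 2 * #S) :
    ∃ u : (ZMod m)ˣ, ∑ i ∈ S, ((u : ZMod m) * b i).val = q * m := by
  classical
  rcases Nat.eq_zero_or_pos q with hq | hq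
  · exfalso
    subst hq
    obtain ⟨g, hg1, _⟩ := hs
    have h1 : 0 < #S := by omega
    obtain ⟨i, hi⟩ := card_pos.1 h1
    exact absurd (hg1 i hi) (by omega)
  obtain ⟨p, rfl⟩ : ∃ p, q = p + 1 := ⟨q - 1, by omega⟩
  -- the longest block
  obtain ⟨B₁, hB₁, hB₁max⟩ : ∃ B₁ ∈ S.powerset.filter fun P : Finset ι => P.Nonempty ∧ ∑ i ∈ P, b i = 0 ∧
      Split b (S \ P) p, ∀ P ∈ S.powerset.filter fun P : Finset ι => P.Nonempty ∧ ∑ i ∈ P, b i = 0 ∧
      Split b (S \ P) p, #P ≤ #B₁ := by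
    refine exists_max_image _ _ ?_
    obtain ⟨g, hg⟩ := hs
    have hg' : IsPart b S (p + 1) g := hg
    have h1 := hg'.single (j := p) (by omega)
    have h2 := hg'.split (range (p + 1) \ {p}) sdiff_subset
    have h3 : S \ blks S g {p} = blks S g (range (p + 1) \ {p}) := by
      ext i
      simp only [blks, mem_sdiff, mem_filter, mem_singleton, mem_range]
      constructor
      · rintro ⟨h4, h5⟩
        exact ⟨h4, hg'.1 i h4, fun h6 => h5 ⟨h4, h6⟩⟩
      · rintro ⟨h4, _, h5⟩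
        exact ⟨h4, fun h6 => h5 h6.2⟩
    refine ⟨blks S g {p}, mem_filter.2 ⟨mem_powerset.2 (blks_sub _ _ _), h1.1, h1.2, ?_⟩⟩
    rw [h3]
    rw [card_sdiff_of_subset (singleton_subset_iff.2 (mem_range.2 (by omega))), card_range,
      card_singleton] at h2
    exact h2
  rw [mem_filter, mem_powerset] at hB₁
  obtain ⟨hB₁S, hB₁n, hB₁s, g, hg⟩ := hB₁
  set R := S \ B₁ with hR
  have hg' : IsPart b R p g := hg
  have hd : Disjoint B₁ R := disjoint_sdiff
  have hSR : B₁ ∪ R = S := union_sdiff_of_subset hB₁S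
  have hmax : Maxi b B₁ R p := by
    intro P hP hPn hPs hPp
    rw [hSR] at hP hPp
    exact hB₁max P (mem_filter.2 ⟨mem_powerset.2 hP, hPn, hPs, hPp⟩)
  rw [← hSR] at hlen hns h0
  have hL1 := first_long hd hg' hB₁n hB₁s hmax hlen
  have h1 : Atom b B₁ := by
    refine (split_two_or_atom hB₁n hB₁s).resolve_left fun h2 => ?_
    refine hg'.local_max hd (r := 2) hns ∅ (empty_subset _) (p := 2) (by simp) ?_
    have : blks R g ∅ = ∅ := by simp [blks]
    rw [this, union_empty]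
    exact h2
  have hidx : ∃ u : (ZMod m)ˣ, ∑ i ∈ B₁, ((u : ZMod m) * b i).val = m := by
    rcases le_or_gt (m + 3) (2 * #B₁) with h2 | h2
    · exact index_long h1 (by omega) h2
    · obtain ⟨j, hj, hjl⟩ : ∃ j ∈ range p, m + 2 ≤ 2 * #(blks R g {j}) := by
        by_contra hcon
        push Not at hcon
        have h3 : ∑ j ∈ range p, 2 * #(blks R g {j}) ≤ ∑ j ∈ range p, (m + 1) := by
          refine sum_le_sum fun j hj => ?_
          have := hcon j hj
          omega
        rw [← mul_sum, sum_const, card_range, smul_eq_mul, hg'.card_blks] at h3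
        rw [card_union_of_disjoint hd] at hlen
        have h5 : (p + 1) * (m + 1) = p * (m + 1) + (m + 1) := by ring
        omega
      rw [mem_range] at hj
      have h4 := blk_le hd hg' hB₁n hB₁s hmax hj
      have h5 := atom_blk hd hg' hB₁n hB₁s hns hj
      exact index_pair hm (disjoint_of_subset_right (blks_sub _ _ _) hd) h1 h5 (by omega)
        (by omega) (by
          intro P hP hPn hPs hPne
          have := two_max hd hg' hB₁s hmax hj P hP hPn hPs hPne
          omega)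
  obtain ⟨u, hu⟩ := hidx
  refine ⟨u, ?_⟩
  set b' : ι → ZMod m := fun i => (u : ZMod m) * b i with hb'
  have hsum0 : ∀ T : Finset ι, ∑ i ∈ T, b' i = 0 ↔ ∑ i ∈ T, b i = 0 := by
    intro T
    rw [hb', ← mul_sum, u.isUnit.mul_right_eq_zero]
  have hspl : ∀ T q, Split b' T q ↔ Split b T q := fun T q => split_smul u T q
  have h2 := core (b := b') hm hd (fun i hi h => h0 i hi ((u.isUnit.mul_right_eq_zero).1 h))
    ⟨hg'.1, fun B hB => ⟨(hg'.2 B hB).1, (hsum0 _).2 (hg'.2 B hB).2⟩⟩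
    (by rwa [hspl]) ⟨h1.ne, (hsum0 _).2 h1.sum, fun T hT hne hz =>
      h1.min T hT hne ((hsum0 _).1 hz)⟩ hu hlen (by
        intro P hP hPn hPs hPp
        exact hmax P hP hPn ((hsum0 _).1 hPs) ((hspl _ _).1 hPp))
  rw [hSR] at h2
  exact h2

/-- The theorem in the form in which it is used. -/
theorem wt_le (hm : 3 ≤ m) {S : Finset ι} (hne : S.Nonempty) (h0 : ∀ i ∈ S, b i ≠ 0)
    (hS : ∑ i ∈ S, b i = 0) {r : ℕ} (hns : ¬ Split b S (r + 1))
    (hlen : r * (m + 1) + 2 ≤ 2 * #S) :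
    ∃ t : ZMod m, IsUnit t ∧ wt b S t ≤ r * m := by
  classical
  have hex : ∃ n, ¬ Split b S (n + 1) := ⟨r, hns⟩
  obtain ⟨q, hq⟩ : ∃ q, q = Nat.find hex := ⟨_, rfl⟩
  have h1 : ¬ Split b S (q + 1) := by rw [hq]; exact Nat.find_spec hex
  have h2 : q ≤ r := by rw [hq]; exact Nat.find_min' hex hns
  have h3 : 0 < q := by
    rw [Nat.pos_iff_ne_zero]
    intro h
    rw [h] at h1
    exact h1 (split_one hne hS)
  have h4 : Split b S q := by
    have h5 := Nat.find_min hex (m := q - 1) (by omega)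
    rw [not_not] at h5
    have h6 : q - 1 + 1 = q := by omega
    rwa [h6] at h5
  have h7 : q * (m + 1) ≤ r * (m + 1) := Nat.mul_le_mul_right _ h2
  obtain ⟨u, hu⟩ := index_max hm h0 h4 h1 (by omega)
  refine ⟨u, u.isUnit, ?_⟩
  rw [wt, hu]
  exact Nat.mul_le_mul_right _ h2

end Pool.Agent.J4H42.ZS
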