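import Pool.Agent.J4H42.ZS.Core
import Pool.Agent.T2H37.CI.Final

/-!
# Zero-cycles on complete intersections of diagonal hypersurfaces of large dimension
-/

set_option autoImplicit false
set_option linter.unusedSectionVars false

namespace Pool.Agent.J4H42.ZS

open MvPolynomial Finset Pool.Agent.T2H37.FK Pool.Agent.T2H37.CI

variable {𝕜 : Type*} [Field 𝕜] [IsAlgClosed 𝕜] [CharZero 𝕜]

variable {r N m : ℕ} [NeZero m] {A : Matrix (Fin r) (Fin N) 𝕜} {f : (Fin N → 𝕜) → 𝕜}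

/-- the combinations are constant, if each character splits or has small weight -/
theorem const_of (hcomb : ∀ α : Fin N → ZMod m, α ≠ 0 → ∑ i, α i = 0 →
      (∃ q, Split α (univ.filter fun i => α i ≠ 0) q ∧ r + 1 ≤ q + #{i | α i = 0}) ∨
      ∃ q, q + #{i | α i = 0} ≤ r ∧ ∃ t : ZMod m, IsUnit t ∧
        ∑ i with α i ≠ 0, (t * α i).val ≤ q * m)
    (hf : GoodY A m f)
    (hA : GeneralPosition A) (hN : r + 1 ≤ N) (a : Diag 𝕜 N m →₀ ℤ)
    (ha : ∀ (d : ℕ) (P : MvPolynomial (Fin N) 𝕜), d + N = r * m → P.IsHomogeneous d →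
      ∀ v : Fin N → 𝕜, (∀ j, ∑ i, A j i * v i ^ m = 0) →
        (a.sum fun g c => (c : 𝕜) * ((∏ i, g.1 i) * eval (fun i => g.1 i * v i) P)) = 0) :
    ∃ V : 𝕜, ∀ v, OnY A m v → ∑ g ∈ a.support, (a g : 𝕜) * f (dg (ex g) v) = V := by
  classical
  by_cases hne : ∃ v₀, OnY A m v₀
  swap
  · push Not at hne
    exact ⟨0, fun v hv => absurd hv (hne v)⟩
  obtain ⟨v₀, hv₀⟩ := hne
  have hα : ∀ α : Fin N → ZMod m, α ≠ 0 → ∀ v, OnY A m v →
      ∑ g ∈ a.support, (a g : 𝕜) * comp f α (dg (ex g) v) = 0 := by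
    intro α hα0 v hv
    by_cases h0 : ∑ i, α i = 0
    · rcases hcomb α hα0 h0 with ⟨q, hq, hc⟩ | ⟨q, hc, t, ht, hw⟩
      · refine sum_eq_zero fun g _ => ?_
        rw [hf.comp_split hα0 hq hc (onY_dg _ hv), mul_zero]
      · have h1 := sum_char_zero hA hN a ha h0 ht hc hw
        have h2 : ∀ g, (a g : 𝕜) * comp f α (dg (ex g) v) =
            ((a g : 𝕜) * e 𝕜 (pr α (ex g))) * comp f α v := by
          intro g
          rw [comp_dg, mul_assoc]
        rw [sum_congr rfl fun g _ => h2 g, ← sum_mul, h1, zero_mul]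
    · refine sum_eq_zero fun g _ => ?_
      rw [hf.comp_sum_ne h0 (onY_dg _ hv), mul_zero]
  refine ⟨(∑ g ∈ a.support, (a g : 𝕜)) * comp f (0 : Fin N → ZMod m) v₀ / (m : 𝕜) ^ N,
    fun v hv => ?_⟩
  have h1 : ∑ α : Fin N → ZMod m, ∑ g ∈ a.support, (a g : 𝕜) * comp f α (dg (ex g) v) =
      (m : 𝕜) ^ N * ∑ g ∈ a.support, (a g : 𝕜) * f (dg (ex g) v) := by
    rw [sum_comm]
    simp only [← mul_sum, Pool.Agent.T2H37.FK.sum_comp]
    rw [mul_sum]
    refine sum_congr rfl fun g _ => ?_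
    ring
  have h2 : ∑ α : Fin N → ZMod m, ∑ g ∈ a.support, (a g : 𝕜) * comp f α (dg (ex g) v) =
      (∑ g ∈ a.support, (a g : 𝕜)) * comp f (0 : Fin N → ZMod m) v₀ := by
    rw [sum_eq_single 0]
    · rw [sum_mul]
      refine sum_congr rfl fun g _ => ?_
      rw [hf.comp_zero (onY_dg _ hv) hv₀]
    · intro α _ hα0
      exact hα α hα0 v hv
    · intro h
      exact absurd (mem_univ _) h
  rw [h1] at h2
  rw [← h2, mul_div_cancel_left₀ _ (pow_ne_zero _ m_ne_zero)]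

/-- from the characters to the zero-cycles -/
theorem main_of (hcomb : ∀ α : Fin N → ZMod m, α ≠ 0 → ∑ i, α i = 0 →
      (∃ q, Split α (univ.filter fun i => α i ≠ 0) q ∧ r + 1 ≤ q + #{i | α i = 0}) ∨
      ∃ q, q + #{i | α i = 0} ≤ r ∧ ∃ t : ZMod m, IsUnit t ∧
        ∑ i with α i ≠ 0, (t * α i).val ≤ q * m)
    (hA : GeneralPosition A)
    (hN : r + 1 ≤ N) (a : Diag 𝕜 N m →₀ ℤ)
    (ha : ∀ (d : ℕ) (P : MvPolynomial (Fin N) 𝕜), d + N = r * m → P.IsHomogeneous d →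
      ∀ v : Fin N → 𝕜, (∀ j, ∑ i, A j i * v i ^ m = 0) →
        (a.sum fun g c => (c : 𝕜) * ((∏ i, g.1 i) * eval (fun i => g.1 i * v i) P)) = 0)
    (z : Pts A m →₀ ℤ) (hz : (z.sum fun _ c => c) = 0) :
    ∃ k : ℕ, 0 < k ∧ k • (a.sum fun g c => c • z.mapDomain (act g)) ∈ RatEquivZero A m := by
  set w : (Pts A m →₀ ℤ) ⧸ RatEquivZero A m :=
    QuotientAddGroup.mk (a.sum fun g c => c • z.mapDomain (act g)) with hw
  have key : ∀ φ : ((Pts A m →₀ ℤ) ⧸ RatEquivZero A m) →+ 𝕜, φ w = 0 := by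
    intro φ
    set ψ : (Pts A m →₀ ℤ) →+ 𝕜 := φ.comp (QuotientAddGroup.mk' (RatEquivZero A m)) with hψ
    have hψ0 : ∀ z ∈ RatEquivZero A m, ψ z = 0 := by
      intro z hz
      rw [hψ, AddMonoidHom.comp_apply, QuotientAddGroup.mk'_apply,
        (QuotientAddGroup.eq_zero_iff z).2 hz, map_zero]
    obtain ⟨V, hV⟩ := const_of hcomb (goodY_of ψ hψ0) hA hN a ha
    have h1 : ∀ x : Pts A m,
        ∑ g ∈ a.support, (a g : 𝕜) * ψ (Finsupp.single (act g x) 1) = V := by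
      intro x
      rw [← hV _ (onY_rep x)]
      refine sum_congr rfl fun g _ => ?_
      rw [extY_of _ (onY_dg _ (onY_rep x))]
      have h4 : act g x = mkY (dg (ex g) x.1.rep) (onY_dg _ (onY_rep x)) := by
        apply Subtype.ext
        change Projectivization.mk 𝕜 _ _ = Projectivization.mk 𝕜 _ _
        congr 1
        funext l
        rw [dg, ex_spec]
      rw [h4]
    have h2 : φ w = ψ (a.sum fun g c => c • z.mapDomain (act g)) := rfl
    rw [h2, Finsupp.sum, map_sum]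
    have h3 : ∀ g : Diag 𝕜 N m, ψ (a g • z.mapDomain (act g)) =
        ∑ x ∈ z.support, (z x : 𝕜) * ((a g : 𝕜) * ψ (Finsupp.single (act g x) 1)) := by
      intro g
      rw [map_zsmul, Finsupp.mapDomain, Finsupp.sum, map_sum, zsmul_eq_mul, mul_sum]
      refine sum_congr rfl fun x _ => ?_
      have h4 : (Finsupp.single (act g x) (z x) : Pts A m →₀ ℤ) =
          z x • Finsupp.single (act g x) 1 := by
        rw [Finsupp.smul_single, smul_eq_mul, mul_one]
      rw [h4, map_zsmul, zsmul_eq_mul]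
      ring
    simp only [h3]
    rw [sum_comm]
    simp only [← mul_sum, h1]
    rw [← sum_mul]
    have h5 : ∑ x ∈ z.support, (z x : 𝕜) = 0 := by
      have h6 : ((z.sum fun _ c => c : ℤ) : 𝕜) = 0 := by rw [hz]; simp
      rw [Finsupp.sum] at h6
      rw [← h6]
      push_cast
      rfl
    rw [h5, zero_mul]
  obtain ⟨k, hk, hkw⟩ := torsion_of w key
  refine ⟨k, hk, ?_⟩
  rw [hw, ← QuotientAddGroup.mk_nsmul] at hkw
  exact (QuotientAddGroup.eq_zero_iff _).1 hkw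

/-- the combinatorial condition in large dimension -/
lemma comb_of {n : ℕ} (hmn : r * (m - 1) ≤ 2 * n) (α : Fin (n + r + 1) → ZMod m) (hα : α ≠ 0)
    (h0 : ∑ i, α i = 0) :
      (∃ q, Split α (univ.filter fun i => α i ≠ 0) q ∧ r + 1 ≤ q + #{i | α i = 0}) ∨
      ∃ q, q + #{i | α i = 0} ≤ r ∧ ∃ t : ZMod m, IsUnit t ∧
        ∑ i with α i ≠ 0, (t * α i).val ≤ q * m := by
  classical
  set S := univ.filter fun i => α i ≠ 0 with hS
  have hne : S.Nonempty := by
    rw [nonempty_iff_ne_empty]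
    intro h
    apply hα
    funext i
    by_contra h1
    have : i ∈ S := mem_filter.2 ⟨mem_univ _, h1⟩
    rw [h] at this
    simp at this
  have hSs : ∑ i ∈ S, α i = 0 := by rw [hS, sum_filter_ne_zero, h0]
  have hS0 : ∀ i ∈ S, α i ≠ 0 := fun i hi => (mem_filter.1 hi).2
  have hcard : #S + #{i | α i = 0} = n + r + 1 := by
    have h1 := card_filter_add_card_filter_not (s := (univ : Finset (Fin (n + r + 1))))
      (p := fun i => α i = 0)
    rw [card_univ, Fintype.card_fin] at h1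
    change #{i | α i = 0} + #S = n + r + 1 at h1
    omega
  obtain ⟨z, hz⟩ : ∃ z, z = #{i | α i = 0} := ⟨_, rfl⟩
  rw [← hz] at hcard ⊢
  by_cases hzr : r < z
  · left
    exact ⟨1, split_one hne hSs, by omega⟩
  push Not at hzr
  rcases Nat.lt_or_ge m 3 with hm | hm
  · -- small degrees
    have hm0 : m ≠ 0 := NeZero.ne m
    have hm12 : m = 1 ∨ m = 2 := by omega
    rcases hm12 with rfl | rfl
    · exfalso
      obtain ⟨i, hi⟩ := hne
      exact hS0 i hi (Subsingleton.elim _ _)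
    · obtain ⟨q, hq, t, ht, hw⟩ := pp2 α S hS0 hSs
      by_cases hc : r + 1 ≤ q + z
      · exact Or.inl ⟨q, hq, hc⟩
      · exact Or.inr ⟨q, by omega, t, ht, hw⟩
  · by_cases hsp : Split α S (r - z + 1)
    · exact Or.inl ⟨r - z + 1, hsp, by omega⟩
    · right
      have hlen : (r - z) * (m + 1) + 2 ≤ 2 * #S := by
        obtain ⟨r', hr'⟩ : ∃ r', r = r' + z := ⟨r - z, by omega⟩
        obtain ⟨k, rfl⟩ : ∃ k, m = k + 1 := ⟨m - 1, by omega⟩
        subst hr'
        rw [Nat.add_sub_cancel] at hmn ⊢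
        have h1 : r' * (k + 1 + 1) = r' * k + 2 * r' := by ring
        have h2 : r' * k ≤ (r' + z) * k := Nat.mul_le_mul_right _ (by omega)
        omega
      obtain ⟨t, ht, hw⟩ := wt_le hm hne hS0 hSs hsp hlen
      exact ⟨r - z, by omega, t, ht, hw⟩

/-- Zero-cycles on complete intersections of large dimension of diagonal hypersurfaces. -/
theorem main {n : ℕ} {A : Matrix (Fin r) (Fin (n + r + 1)) 𝕜} (_hn : 1 ≤ n)
    (hmn : r * (m - 1) ≤ 2 * n) (hA : GeneralPosition A)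
    (a : Diag 𝕜 (n + r + 1) m →₀ ℤ)
    (ha : ∀ (d : ℕ) (P : MvPolynomial (Fin (n + r + 1)) 𝕜), d + (n + r + 1) = r * m →
      P.IsHomogeneous d → ∀ v : Fin (n + r + 1) → 𝕜, (∀ j, ∑ i, A j i * v i ^ m = 0) →
        (a.sum fun g c => (c : 𝕜) * ((∏ i, g.1 i) * eval (fun i => g.1 i * v i) P)) = 0)
    (z : Pts A m →₀ ℤ) (hz : (z.sum fun _ c => c) = 0) :
    ∃ k : ℕ, 0 < k ∧ k • (a.sum fun g c => c • z.mapDomain (act g)) ∈ RatEquivZero A m :=
  main_of (comb_of hmn) hA (by omega) a ha z hz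

end Pool.Agent.J4H42.ZS
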