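import Pool.Agent.J4H42.ZS.Pair
import Pool.Agent.T2H37.FB.SC

/-!
# Long atoms have index one
-/

set_option autoImplicit false
set_option linter.unusedSectionVars false

namespace Pool.Agent.J4H42.ZS

open Finset Pool.Agent.T2H37.CI Pool.Agent.T2H37.FB

variable {m : ℕ} {ι : Type*} [DecidableEq ι] [NeZero m] {b : ι → ZMod m} {B : Finset ι}

/-- An atom with few sums is a multiple of a sequence of weight one. -/
theorem index_fin (hB : Atom b B) (_hB2 : 2 ≤ #B) {i₀ : ι} (hi₀ : i₀ ∈ B)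
    (h1 : (sums b (B.erase i₀)).card + 1 ≤ 2 * (#B - 1)) (h2 : m ≤ 2 * (#B - 1)) :
    ∃ u : (ZMod m)ˣ, ∑ i ∈ B, ((u : ZMod m) * b i).val = m := by
  set S : Finset ι := B.erase i₀ with hS
  have hSc : S.card = #B - 1 := by
    rw [hS, card_erase_of_mem hi₀]
  have hzf : ZeroFree b S := by
    intro T hT hne h
    have h3 := hB.min T (hT.trans (erase_subset _ _)) hne h
    rw [h3] at hT
    exact (mem_erase.1 (hT hi₀)).1 rfl
  have hSne : S.Nonempty := by
    rw [← card_pos, hSc]
    omega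
  obtain ⟨g, x, hx1, hx2, hx3⟩ := smooth b S.card S rfl hzf hSne (by rw [hSc]; exact h1)
  have hsc : (sums b S).card ≤ m := by
    have := card_le_univ (sums b S)
    rwa [ZMod.card] at this
  set s := ∑ j ∈ S, x j with hs
  have hs1 : S.card ≤ s := by
    rw [hs, card_eq_sum_ones]
    exact sum_le_sum fun j hj => (hx1 j hj).1
  have hs2 : s + 1 ≤ m := by
    rw [hx2, card_image_range hx3] at hsc
    exact hsc
  have hord : addOrderOf g = m := by
    have hd : addOrderOf g ∣ m := by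
      rw [addOrderOf_dvd_iff_nsmul_eq_zero, nsmul_eq_mul, ZMod.natCast_self, zero_mul]
    have hpos : 0 < addOrderOf g := addOrderOf_pos g
    have hgt : s < addOrderOf g := by
      by_contra hcon
      exact hx3 _ hpos (not_lt.1 hcon) (addOrderOf_nsmul_eq_zero g)
    obtain ⟨k, hk⟩ := hd
    have hk2 : k < 2 := by
      by_contra hcon
      have h3 : addOrderOf g * 2 ≤ m := by
        conv_rhs => rw [hk]
        exact Nat.mul_le_mul_left _ (not_lt.1 hcon)
      omega
    have hm0 := NeZero.ne m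
    interval_cases k
    · omega
    · omega
  have hg : IsUnit g := by
    have h1 : Function.Surjective fun k : ZMod m => k * g := by
      rw [← Finite.injective_iff_surjective]
      intro k l hkl
      simp only at hkl
      have h2 : (k - l) * g = 0 := by rw [sub_mul, hkl, sub_self]
      have h3 : (k - l).val • g = 0 := by
        rw [nsmul_eq_mul, ZMod.natCast_zmod_val, h2]
      have h4 : m ∣ (k - l).val := by
        rw [← addOrderOf_dvd_iff_nsmul_eq_zero, hord] at h3
        exact h3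
      have h5 : (k - l).val = 0 := Nat.eq_zero_of_dvd_of_lt h4 (ZMod.val_lt _)
      rw [ZMod.val_eq_zero] at h5
      exact sub_eq_zero.1 h5
    obtain ⟨k, hk⟩ := h1 1
    exact IsUnit.of_mul_eq_one k (by rw [mul_comm]; exact hk)
  obtain ⟨u, rfl⟩ := hg
  refine ⟨u⁻¹, ?_⟩
  have hval : ∀ i ∈ S, (((u⁻¹ : (ZMod m)ˣ) : ZMod m) * b i).val = x i := by
    intro i hi
    rw [(hx1 i hi).2, nsmul_eq_mul, mul_left_comm, Units.inv_mul, mul_one, ZMod.val_natCast,
      Nat.mod_eq_of_lt]
    have : x i ≤ s := single_le_sum (f := x) (fun _ _ => Nat.zero_le _) hi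
    omega
  have hlast : b i₀ = -(s • (u : ZMod m)) := by
    have h1 : ∑ i ∈ S, b i + b i₀ = 0 := by
      rw [hS, sum_erase_add _ _ hi₀, hB.sum]
    have h2 : ∑ i ∈ S, b i = s • (u : ZMod m) := by
      rw [hs, Finset.sum_smul]
      exact sum_congr rfl fun i hi => (hx1 i hi).2
    rw [h2] at h1
    exact (neg_eq_of_add_eq_zero_right h1).symm
  have hvl : (((u⁻¹ : (ZMod m)ˣ) : ZMod m) * b i₀).val = m - s := by
    rw [hlast, nsmul_eq_mul, mul_neg, mul_left_comm, Units.inv_mul, mul_one]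
    have h2 : (-(s : ZMod m)) = ((m - s : ℕ) : ZMod m) := by
      rw [Nat.cast_sub (by omega), ZMod.natCast_self, zero_sub]
    rw [h2, ZMod.val_natCast, Nat.mod_eq_of_lt (by omega)]
  rw [← sum_erase_add _ _ hi₀, hvl, sum_congr rfl hval]
  change s + (m - s) = m
  omega

/-- the theorem of Savchev and Chen, and of Yuan -/
theorem index_long (hB : Atom b B) (hB2 : 2 ≤ #B) (h : m + 3 ≤ 2 * #B) :
    ∃ u : (ZMod m)ˣ, ∑ i ∈ B, ((u : ZMod m) * b i).val = m := by
  obtain ⟨i₀, hi₀⟩ := hB.ne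
  have hsc : (sums b (B.erase i₀)).card ≤ m := by
    have := card_le_univ (sums b (B.erase i₀))
    rwa [ZMod.card] at this
  exact index_fin hB hB2 hi₀ (by omega) (by omega)

/-- The case of length `m / 2 + 1`. -/
theorem index_pair {B₁ B₂ : Finset ι} (hm : 3 ≤ m) (hd : Disjoint B₁ B₂) (h1 : Atom b B₁)
    (h2 : Atom b B₂) (l1 : 2 * #B₁ = m + 2) (l2 : 2 * #B₂ = m + 2)
    (hmax : ∀ P ⊆ B₁ ∪ B₂, P.Nonempty → ∑ i ∈ P, b i = 0 → P ≠ B₁ ∪ B₂ → 2 * #P ≤ m + 2) :
    ∃ u : (ZMod m)ˣ, ∑ i ∈ B₁, ((u : ZMod m) * b i).val = m := by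
  obtain ⟨a, ha, y, hy, hne⟩ : ∃ a ∈ B₁, ∃ y ∈ B₂, b a ≠ b y := by
    by_contra hcon
    push Not at hcon
    obtain ⟨y, hy⟩ := h2.ne
    have hall : ∀ i ∈ B₁, b i = b y := fun i hi => hcon i hi y hy
    have h3 := h1.sum
    rw [sum_congr rfl hall, sum_const, nsmul_eq_mul] at h3
    have h4 : (2 : ZMod m) * b y = 0 := by
      have h5 : ((2 * #B₁ : ℕ) : ZMod m) * b y = 0 := by
        push_cast
        rw [mul_assoc, h3, mul_zero]
      rw [l1] at h5
      push_cast at h5
      rw [ZMod.natCast_self, zero_add] at h5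
      exact h5
    obtain ⟨T, hT, hTc⟩ := exists_subset_card_eq (s := B₁) (n := 2) (by omega)
    have h5 : ∑ i ∈ T, b i = 0 := by
      rw [sum_congr rfl fun i hi => hall i (hT hi), sum_const, hTc, nsmul_eq_mul]
      exact_mod_cast h4
    have h6 := h1.min T hT (card_pos.1 (by omega)) h5
    rw [h6] at hTc
    omega
  have hyB : y ∉ B₁ := fun h => disjoint_left.1 hd h hy
  have hnot : - b y ∉ sums b (B₁.erase a) := by
    intro hmem
    obtain ⟨V, hV, hVs⟩ := mem_sums.1 hmem
    have hVB : V ⊆ B₁ := hV.trans (erase_subset _ _)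
    have hyV : y ∉ V := fun h => hyB (hVB h)
    have haP : a ∉ insert y V := by
      rw [mem_insert]
      rintro (h | h)
      · rw [h] at hne
        exact hne rfl
      · simpa using hV h
    have hPs : ∑ i ∈ insert y V, b i = 0 := by
      rw [sum_insert hyV, hVs, add_neg_cancel]
    have hPsub : insert y V ⊆ B₁ ∪ B₂ := by
      rw [insert_subset_iff]
      exact ⟨mem_union_right _ hy, hVB.trans subset_union_left⟩
    have hPne : insert y V ≠ B₁ ∪ B₂ := by
      intro h
      rw [h] at haP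
      exact haP (mem_union_left _ ha)
    have c1 := hmax _ hPsub (insert_nonempty _ _) hPs hPne
    have hQs : ∑ i ∈ (B₁ ∪ B₂) \ insert y V, b i = 0 := by
      have := sum_sdiff (f := b) hPsub
      rw [hPs, add_zero, sum_union hd, h1.sum, h2.sum, add_zero] at this
      exact this
    have c2 := hmax _ sdiff_subset ⟨a, mem_sdiff.2 ⟨mem_union_left _ ha, haP⟩⟩ hQs (by
      intro h
      have : y ∈ (B₁ ∪ B₂) \ insert y V := by rw [h]; exact mem_union_right _ hy
      simp at this)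
    rw [card_sdiff_of_subset hPsub, card_union_of_disjoint hd] at c2
    rw [card_insert_of_notMem hyV] at c1 c2
    have hVe : V = B₁.erase a := by
      apply eq_of_subset_of_card_le hV
      rw [card_erase_of_mem ha]
      omega
    rw [hVe] at hVs
    have h3 := sum_erase_add _ b ha
    rw [hVs, h1.sum] at h3
    apply hne
    rw [neg_add_eq_zero] at h3
    exact h3.symm
  have hcard : (sums b (B₁.erase a)).card + 1 ≤ m := by
    have h3 : sums b (B₁.erase a) ⊆ univ.erase (- b y) := by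
      intro x hx
      rw [mem_erase]
      exact ⟨fun h => hnot (h ▸ hx), mem_univ _⟩
    have h4 := card_le_card h3
    rw [card_erase_of_mem (mem_univ _), card_univ, ZMod.card] at h4
    omega
  exact index_fin h1 (by omega) ha (by omega) (by omega)

/-- a sequence of `n` positive integers with sum `n` -/
lemma all_one {x : ι → ℕ} {C : Finset ι} (h1 : ∀ i ∈ C, 1 ≤ x i) (hs : ∑ i ∈ C, x i = #C) :
    ∀ i ∈ C, x i = 1 := by
  rw [card_eq_sum_ones] at hs
  intro i hi
  exact ((sum_eq_sum_iff_of_le h1).1 hs.symm i hi).symm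

/-- The atoms of length `m` are constant. -/
theorem atom_const {C : Finset ι} (hm : 3 ≤ m) (h0 : ∀ i ∈ C, b i ≠ 0) (hC : Atom b C)
    (hc : #C = m) {i j : ι} (hi : i ∈ C) (hj : j ∈ C) : b i = b j := by
  obtain ⟨u, hu⟩ := index_long hC (by omega) (by omega)
  have h1 : ∀ i ∈ C, 1 ≤ ((u : ZMod m) * b i).val := by
    intro i hi
    rw [Nat.one_le_iff_ne_zero, Ne, ZMod.val_eq_zero]
    intro h
    exact h0 i hi ((u.isUnit.mul_right_eq_zero).1 h)
  have h2 := all_one h1 (by rw [hu, hc])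
  have h3 : (u : ZMod m) * b i = (u : ZMod m) * b j := by
    apply ZMod.val_injective
    rw [h2 i hi, h2 j hj]
  exact u.isUnit.mul_left_cancel h3

/-- the structure of a long block of weight one -/
lemma shape {D : Finset ι} (h0 : ∀ i ∈ D, b i ≠ 0) (hD : ∑ i ∈ D, (b i).val = m)
    (hD2 : 2 * #D = m + 2) {i : ι} (hi : i ∈ D) (hx : m ≤ 2 * (b i).val) :
    2 * (b i).val = m ∧ ∀ k ∈ D.erase i, (b k).val = 1 := by
  have h1 := item_le h0 hD hi
  refine ⟨by omega, fun k hk => ?_⟩
  have h2 := other_le h0 hD hi hk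
  have h3 := one_le_val (h0 k (mem_of_mem_erase hk))
  omega

/-- Two atoms of length `m / 2 + 1` and weight one for different units. -/
theorem two_units {B₁ B₂ : Finset ι} (hm : 3 ≤ m) (hd : Disjoint B₁ B₂) (h1 : Atom b B₁)
    (h2 : Atom b B₂) (h0 : ∀ i ∈ B₁ ∪ B₂, b i ≠ 0) (l1 : 2 * #B₁ = m + 2)
    (l2 : 2 * #B₂ = m + 2)
    (w1 : ∑ i ∈ B₁, (b i).val = m) (w2 : ∑ i ∈ B₂, (b i).val ≠ m) (u : (ZMod m)ˣ)
    (w3 : ∑ i ∈ B₂, ((u : ZMod m) * b i).val = m) : Split b (B₁ ∪ B₂) 3 := by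
  by_contra hns
  have h01 : ∀ i ∈ B₁, b i ≠ 0 := fun i hi => h0 i (mem_union_left _ hi)
  have h02 : ∀ i ∈ B₂, b i ≠ 0 := fun i hi => h0 i (mem_union_right _ hi)
  have ht1 : m / 2 - 1 + 1 ≤ #B₂ := by omega
  have ht1' : m / 2 - 1 + 1 ≤ #B₁ := by omega
  have ht2 : 2 * (m / 2 - 1) + 1 ≤ m := by omega
  -- the first block
  obtain ⟨h, c, hc, hcm, hBc, j, hj⟩ := h2.exists_three (by omega) ht1 ht2 w2
  obtain ⟨i₁, hi₁, hi₁c⟩ := good_bad h01 hd hc hcm hBc w1 (by omega) hns
  have hi₁j := hi₁c j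
  obtain ⟨s1, s1'⟩ := shape h01 w1 l1 hi₁ (by omega)
  -- the scaled sequence
  set b' : ι → ZMod m := fun i => (u : ZMod m) * b i with hb'
  have hsum : ∀ T : Finset ι, ∑ i ∈ T, b' i = (u : ZMod m) * ∑ i ∈ T, b i := by
    intro T
    rw [hb', mul_sum]
  have hsum0 : ∀ T : Finset ι, ∑ i ∈ T, b' i = 0 ↔ ∑ i ∈ T, b i = 0 := by
    intro T
    rw [hsum T, u.isUnit.mul_right_eq_zero]
  have h1' : Atom b' B₁ := ⟨h1.ne, (hsum0 _).2 h1.sum, fun T hT hne hz =>
    h1.min T hT hne ((hsum0 _).1 hz)⟩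
  have h0' : ∀ i ∈ B₁ ∪ B₂, b' i ≠ 0 := fun i hi h =>
    h0 i hi ((u.isUnit.mul_right_eq_zero).1 h)
  have hu1 : (u : ZMod m) ≠ 1 := by
    intro h
    apply w2
    refine Eq.trans ?_ w3
    refine sum_congr rfl fun i _ => ?_
    rw [h, one_mul]
  have hb1 : ∀ k ∈ B₁.erase i₁, b k = 1 := by
    intro k hk
    have := s1' k hk
    have h3 : ((b k).val : ZMod m) = ((1 : ℕ) : ZMod m) := by rw [this]
    rw [ZMod.natCast_zmod_val] at h3
    simpa using h3
  have w4 : ∑ i ∈ B₁, (b' i).val ≠ m := by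
    intro hw
    rw [← sum_erase_add _ _ hi₁] at hw
    have h3 : ∑ k ∈ B₁.erase i₁, (b' k).val = #(B₁.erase i₁) * (u : ZMod m).val := by
      rw [← smul_eq_mul, ← sum_const]
      refine sum_congr rfl fun k hk => ?_
      simp only [hb']
      rw [hb1 k hk, mul_one]
    rw [h3, card_erase_of_mem hi₁] at hw
    have h4 := one_le_val (h0' i₁ (mem_union_left _ hi₁))
    have h5 : (u : ZMod m).val ≤ 1 := by
      by_contra hcon
      push Not at hcon
      have : (#B₁ - 1) * 2 ≤ (#B₁ - 1) * (u : ZMod m).val := Nat.mul_le_mul_left _ hcon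
      omega
    have h6 : (u : ZMod m).val = 1 := by
      have h7 : (u : ZMod m).val ≠ 0 := by
        rw [Ne, ZMod.val_eq_zero]
        intro h8
        have h9 := u.isUnit
        rw [h8] at h9
        have : Nontrivial (ZMod m) := ZMod.nontrivial_iff.2 (by omega)
        exact not_isUnit_zero h9
      omega
    apply hu1
    have h3 : (((u : ZMod m).val : ℕ) : ZMod m) = ((1 : ℕ) : ZMod m) := by rw [h6]
    rw [ZMod.natCast_zmod_val] at h3
    simpa using h3
  have hns' : ¬ Split b' (B₂ ∪ B₁) 3 := by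
    rintro ⟨g, hg1, hg2⟩
    apply hns
    rw [union_comm]
    exact ⟨g, hg1, fun B hB => ⟨(hg2 B hB).1, (hsum0 _).1 (hg2 B hB).2⟩⟩
  obtain ⟨h', c', hc', hcm', hBc', j', hj'⟩ := h1'.exists_three (by omega) ht1' ht2 w4
  obtain ⟨i₂, hi₂, hi₂c⟩ := good_bad (fun i hi => h0' i (mem_union_right _ hi)) hd.symm hc' hcm'
    hBc' w3 (by omega) hns'
  have hi₂j := hi₂c j'
  obtain ⟨s2, s2'⟩ := shape (b := b') (fun i hi => h0' i (mem_union_right _ hi)) w3 l2 hi₂
    (by omega)
  have hb2 : ∀ k ∈ B₂.erase i₂, (u : ZMod m) * b k = 1 := by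
    intro k hk
    have := s2' k hk
    have h3 : ((b' k).val : ZMod m) = ((1 : ℕ) : ZMod m) := by rw [this]
    rw [ZMod.natCast_zmod_val] at h3
    simpa using h3
  -- the two elements of order two
  have hz2 : ∀ x : ZMod m, 2 * x.val = m → x + x = 0 := by
    intro x hx
    have h3 : ((2 * x.val : ℕ) : ZMod m) = 0 := by rw [hx, ZMod.natCast_self]
    push_cast at h3
    rw [ZMod.natCast_zmod_val] at h3
    rw [← two_mul]
    exact h3
  have e1 : b i₁ + b i₁ = 0 := hz2 _ s1
  have e2 : b i₂ + b i₂ = 0 := by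
    have h3 := hz2 _ s2
    simp only [hb'] at h3
    rw [← mul_add] at h3
    exact (u.isUnit.mul_right_eq_zero).1 h3
  have e3 : (b i₂).val = (b i₁).val := by
    have h3 : (b i₂ + b i₂).val = 0 := by rw [e2]; simp
    have h4 := one_le_val (h02 i₂ hi₂)
    have h5 := ZMod.val_lt (b i₂)
    rcases lt_or_ge ((b i₂).val + (b i₂).val) m with h6 | h6
    · rw [ZMod.val_add_of_lt h6] at h3
      omega
    · have h7 := ZMod.val_add_val_of_le h6
      rw [h3] at h7
      omega
  have e4 : b i₂ = b i₁ := ZMod.val_injective m e3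
  have hine : i₁ ≠ i₂ := by
    rintro rfl
    exact disjoint_left.1 hd hi₁ hi₂
  -- the rest
  set P : Finset ι := {i₁, i₂} with hP
  have hPsub : P ⊆ B₁ ∪ B₂ := by
    rw [hP, insert_subset_iff, singleton_subset_iff]
    exact ⟨mem_union_left _ hi₁, mem_union_right _ hi₂⟩
  have hPs : ∑ i ∈ P, b i = 0 := by
    rw [hP, sum_pair hine, e4, e1]
  have hPc : #P = 2 := card_pair hine
  have hQs : ∑ i ∈ (B₁ ∪ B₂) \ P, b i = 0 := by
    have := sum_sdiff (f := b) hPsub
    rw [hPs, add_zero, sum_union hd, h1.sum, h2.sum, add_zero] at this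
    exact this
  have hQc : #((B₁ ∪ B₂) \ P) = m := by
    rw [card_sdiff_of_subset hPsub, card_union_of_disjoint hd, hPc]
    omega
  have hQ : Split b ((B₁ ∪ B₂) \ P) 2 := by
    rcases split_two_or_atom (b := b) (S := (B₁ ∪ B₂) \ P) (card_pos.1 (by omega)) hQs with h3 | h3
    · exact h3
    · exfalso
      obtain ⟨k, hk⟩ : (B₁.erase i₁).Nonempty := card_pos.1 (by
        rw [card_erase_of_mem hi₁]; omega)
      obtain ⟨l, hl⟩ : (B₂.erase i₂).Nonempty := card_pos.1 (by
        rw [card_erase_of_mem hi₂]; omega)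
      have hk' := mem_erase.1 hk
      have hl' := mem_erase.1 hl
      have h4 := atom_const hm (fun i hi => h0 i (sdiff_subset hi)) h3 hQc (i := k) (j := l)
        (by
          rw [mem_sdiff, hP, mem_insert, mem_singleton]
          refine ⟨mem_union_left _ hk'.2, ?_⟩
          rintro (h | h)
          · exact hk'.1 h
          · rw [h] at hk'
            exact disjoint_left.1 hd hk'.2 hi₂)
        (by
          rw [mem_sdiff, hP, mem_insert, mem_singleton]
          refine ⟨mem_union_right _ hl'.2, ?_⟩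
          rintro (h | h)
          · rw [h] at hl'
            exact disjoint_left.1 hd hi₁ hl'.2
          · exact hl'.1 h)
      have h5 := hb2 l hl
      rw [← h4, hb1 k hk, mul_one] at h5
      exact hu1 h5
  apply hns
  have h6 := split_union (b := b) sdiff_disjoint hQ
    (split_one (S := P) (card_pos.1 (by omega)) hPs)
  rwa [sdiff_union_of_subset hPsub] at h6

end Pool.Agent.J4H42.ZS
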