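import Pool.Agent.J4H42.ZS.Wrap
import Pool.Agent.T2H37.CI.Comb

/-!
# Splitting the union of a sequence of weight one and a bad atom into three blocks
-/

set_option autoImplicit false
set_option linter.unusedSectionVars false

namespace Pool.Agent.J4H42.ZS

open Finset Pool.Agent.T2H37.CI

variable {m : ℕ} {ι : Type*} [DecidableEq ι]

/-- A sequence of positive integers with many ones is a union of three sequences with given
sums. -/
theorem split3 (x : ι → ℕ) : ∀ (n : ℕ) (D : Finset ι) (c : Fin 3 → ℕ), #D = n →
    (∀ i ∈ D, 1 ≤ x i) → ∑ i ∈ D, x i = c 0 + c 1 + c 2 → ∑ i ∈ D, x i + 2 ≤ 2 * #D →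
      (∀ i ∈ D, ∃ j, x i ≤ c j) → ∃ h : ι → Fin 3, ∀ j, ∑ i ∈ D with h i = j, x i = c j := by
  intro n
  induction n with
  | zero =>
    intro D c hD _ _ h _
    omega
  | succ n ih =>
    intro D c hD h1 hs hδ hmax
    obtain ⟨i, hi, hix⟩ := exists_max_image D x (card_pos.1 (by omega))
    by_cases hx : x i ≤ 1
    · -- all the items are one
      have hone : ∀ k ∈ D, x k = 1 := fun k hk => le_antisymm ((hix k hk).trans hx) (h1 k hk)
      have hsum : ∀ T ⊆ D, ∑ k ∈ T, x k = #T := by
        intro T hT
        rw [sum_congr rfl fun k hk => hone k (hT hk), sum_const, smul_eq_mul, mul_one]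
      rw [hsum D (Subset.refl _)] at hs
      obtain ⟨P, hP, hPc⟩ := exists_subset_card_eq (s := D) (n := c 0) (by omega)
      obtain ⟨Q, hQ, hQc⟩ := exists_subset_card_eq (s := D \ P) (n := c 1) (by
        rw [card_sdiff_of_subset hP]; omega)
      have hQD : Q ⊆ D := hQ.trans sdiff_subset
      have hPQ : Disjoint P Q := by
        rw [disjoint_left]
        intro k hk hk'
        exact (mem_sdiff.1 (hQ hk')).2 hk
      refine ⟨fun k => if k ∈ P then 0 else if k ∈ Q then 1 else 2, ?_⟩
      intro j
      fin_cases j
      · change _ = c 0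
        rw [← hPc, ← hsum P hP]
        refine sum_congr ?_ fun _ _ => rfl
        ext k
        simp only [mem_filter]
        constructor
        · rintro ⟨_, h⟩
          by_contra hk
          simp only [hk, if_false] at h
          split_ifs at h <;> simp at h
        · intro hk
          exact ⟨hP hk, by simp [hk]⟩
      · change _ = c 1
        rw [← hQc, ← hsum Q hQD]
        refine sum_congr ?_ fun _ _ => rfl
        ext k
        simp only [mem_filter]
        constructor
        · rintro ⟨_, h⟩
          by_contra hk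
          split_ifs at h <;> simp at h
        · intro hk
          have : k ∉ P := fun h => disjoint_left.1 hPQ h hk
          exact ⟨hQD hk, by simp [hk, this]⟩
      · change _ = c 2
        have h3 : #(D \ (P ∪ Q)) = c 2 := by
          rw [card_sdiff_of_subset (union_subset hP hQD), card_union_of_disjoint hPQ]
          omega
        rw [← h3, ← hsum _ sdiff_subset]
        refine sum_congr ?_ fun _ _ => rfl
        ext k
        simp only [mem_filter, mem_sdiff, mem_union]
        constructor
        · rintro ⟨hk, h⟩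
          refine ⟨hk, ?_⟩
          rintro (h' | h')
          · simp [h'] at h
          · by_cases h'' : k ∈ P <;> simp [h', h''] at h
        · rintro ⟨hk, h⟩
          push Not at h
          exact ⟨hk, by simp [h.1, h.2]⟩
    · push Not at hx
      obtain ⟨j, hj⟩ := hmax i hi
      have hcard : #(D.erase i) = n := by rw [card_erase_of_mem hi, hD]; rfl
      have hsum : ∑ k ∈ D, x k = ∑ k ∈ D.erase i, x k + x i := (sum_erase_add _ _ hi).symm
      set c' := Function.update c j (c j - x i) with hc'
      have hc'sum : c' 0 + c' 1 + c' 2 + x i = c 0 + c 1 + c 2 := by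
        fin_cases j <;> simp [hc'] at hj ⊢ <;> omega
      have hs' : ∑ k ∈ D.erase i, x k = c' 0 + c' 1 + c' 2 := by omega
      obtain ⟨h, hh⟩ := ih (D.erase i) c' hcard (fun k hk => h1 k (mem_of_mem_erase hk)) hs'
        (by omega) (by
          intro k hk
          by_contra hcon
          push Not at hcon
          have h4 := hcon 0
          have h5 := hcon 1
          have h6 := hcon 2
          have h7 := hix k (mem_of_mem_erase hk)
          have h8 : ∑ l ∈ D.erase i, x l = ∑ l ∈ (D.erase i).erase k, x l + x k :=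
            (sum_erase_add _ _ hk).symm
          have h9 : #((D.erase i).erase k) ≤ ∑ l ∈ (D.erase i).erase k, x l := by
            rw [card_eq_sum_ones]
            exact sum_le_sum fun l hl => h1 l (mem_of_mem_erase (mem_of_mem_erase hl))
          rw [card_erase_of_mem hk, hcard] at h9
          omega)
      refine ⟨Function.update h i j, fun k => ?_⟩
      have h4 : ∑ l ∈ D with Function.update h i j l = k, x l =
          ∑ l ∈ D.erase i with h l = k, x l + if k = j then x i else 0 := by
        rw [sum_filter, sum_filter, ← sum_erase_add _ _ hi]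
        congr 1
        · refine sum_congr rfl fun l hl => ?_
          rw [Function.update_of_ne (mem_erase.1 hl).1]
        · rw [Function.update_self]
          by_cases hkj : k = j
          · simp [hkj]
          · simp [hkj, Ne.symm hkj]
      rw [h4, hh k, hc']
      by_cases hkj : k = j
      · subst hkj
        rw [Function.update_self]
        simp only [if_true]
        omega
      · rw [Function.update_of_ne hkj]
        simp [hkj]

variable [NeZero m] {b : ι → ZMod m} {B : Finset ι}

/-- The existence of a suitable partition into three parts. -/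
theorem Atom.exists_three (hB : Atom b B) (hB2 : 2 ≤ #B) {t : ℕ} (ht : t + 1 ≤ #B)
    (ht2 : 2 * t + 1 ≤ m) (hw : ∑ i ∈ B, (b i).val ≠ m) :
    ∃ (h : ι → Fin 3) (c : Fin 3 → ℕ), (∀ j, 1 ≤ c j) ∧ c 0 + c 1 + c 2 = m ∧
      (∀ j, ∑ i ∈ B with h i = j, b i + (c j : ZMod m) = 0) ∧ ∃ j, t ≤ c j := by
  obtain ⟨P, Q, hP, hQ, hPn, hQn, hd, hne, hle, ht'⟩ := hB.exists_wrap hB2 ht ht2 hw
  have hcl : ∀ Z : Finset ι, (sg b Z : ZMod m) = ∑ i ∈ Z, b i := by
    intro Z
    rw [sg, ZMod.natCast_zmod_val]
  have hPlt := sg_lt b P
  have hQlt := sg_lt b Q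
  have hPQ : P ∪ Q ⊆ B := union_subset hP hQ
  have hpos := hB.sg_pos hPQ (hPn.mono subset_union_left) hne
  have hsg := sg_union (b := b) hd
  refine ⟨fun i => if i ∈ P then 0 else if i ∈ Q then 1 else 2,
    ![m - sg b P, m - sg b Q, sg b P + sg b Q - m], ?_, ?_, ?_, ?_⟩
  · intro j
    fin_cases j
    · change 1 ≤ m - sg b P
      omega
    · change 1 ≤ m - sg b Q
      omega
    · change 1 ≤ sg b P + sg b Q - m
      omega
  · change m - sg b P + (m - sg b Q) + (sg b P + sg b Q - m) = m
    omega
  · intro j
    fin_cases j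
    · change _ + ((m - sg b P : ℕ) : ZMod m) = 0
      rw [Nat.cast_sub hPlt.le, hcl]
      have h1 : (B.filter fun i => (if i ∈ P then (0 : Fin 3) else if i ∈ Q then 1 else 2) =
          (⟨0, by omega⟩ : Fin 3)) = P := by
        ext k
        simp only [mem_filter]
        constructor
        · rintro ⟨_, h⟩
          by_contra hk
          simp only [hk, if_false] at h
          split_ifs at h <;> simp at h
        · intro hk
          exact ⟨hP hk, by simp [hk]⟩
      rw [h1]
      simp
    · change _ + ((m - sg b Q : ℕ) : ZMod m) = 0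
      rw [Nat.cast_sub hQlt.le, hcl]
      have h1 : (B.filter fun i => (if i ∈ P then (0 : Fin 3) else if i ∈ Q then 1 else 2) =
          (⟨1, by omega⟩ : Fin 3)) = Q := by
        ext k
        simp only [mem_filter]
        constructor
        · rintro ⟨_, h⟩
          by_contra hk
          split_ifs at h <;> simp at h
        · intro hk
          have : k ∉ P := fun h => disjoint_left.1 hd h hk
          exact ⟨hQ hk, by simp [hk, this]⟩
      rw [h1]
      simp
    · change _ + ((sg b P + sg b Q - m : ℕ) : ZMod m) = 0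
      rw [Nat.cast_sub hle]
      have h1 : (B.filter fun i => (if i ∈ P then (0 : Fin 3) else if i ∈ Q then 1 else 2) =
          (⟨2, by omega⟩ : Fin 3)) = B \ (P ∪ Q) := by
        ext k
        simp only [mem_filter, mem_sdiff, mem_union]
        constructor
        · rintro ⟨hk, h⟩
          refine ⟨hk, ?_⟩
          rintro (h' | h')
          · simp [h'] at h
          · by_cases h'' : k ∈ P <;> simp [h', h''] at h
        · rintro ⟨hk, h⟩
          push Not at h
          exact ⟨hk, by simp [h.1, h.2]⟩
      rw [h1]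
      have h2 := sum_sdiff (f := b) hPQ
      rw [hB.sum, sum_union hd] at h2
      push_cast
      rw [hcl, hcl, ZMod.natCast_self, sub_zero]
      exact h2
  · rcases ht' with h | h | h
    · exact ⟨0, by change t ≤ m - sg b P; omega⟩
    · exact ⟨1, by change t ≤ m - sg b Q; omega⟩
    · exact ⟨2, by change t ≤ sg b P + sg b Q - m; omega⟩

/-- gluing -/
lemma glue {D : Finset ι} (hd : Disjoint D B) {h h' : ι → Fin 3} {c : Fin 3 → ℕ}
    (hc : ∀ j, 1 ≤ c j) (hB : ∀ j, ∑ i ∈ B with h i = j, b i + (c j : ZMod m) = 0)
    (hD : ∀ j, ∑ i ∈ D with h' i = j, (b i).val = c j) : Split b (D ∪ B) 3 := by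
  refine ⟨fun i => if i ∈ D then (h' i).val else (h i).val, ?_, ?_⟩
  · intro i _
    dsimp only
    split_ifs
    · exact (h' i).2
    · exact (h i).2
  · intro k hk
    have hfil : ((D ∪ B).filter fun i => (if i ∈ D then (h' i).val else (h i).val) = k) =
        (D.filter fun i => h' i = (⟨k, hk⟩ : Fin 3)) ∪ B.filter fun i => h i = (⟨k, hk⟩ : Fin 3) := by
      ext i
      simp only [mem_filter, mem_union]
      by_cases hiD : i ∈ D
      · have hiB : i ∉ B := disjoint_left.1 hd hiD
        simp [hiD, hiB, Fin.ext_iff]
      · simp [hiD, Fin.ext_iff]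
    constructor
    · have h1 : (D.filter fun i => h' i = (⟨k, hk⟩ : Fin 3)).Nonempty := by
        rw [nonempty_iff_ne_empty]
        intro h2
        have h3 := hD ⟨k, hk⟩
        have h4 := hc ⟨k, hk⟩
        rw [h2, sum_empty] at h3
        omega
      obtain ⟨i, hi⟩ := h1
      rw [mem_filter] at hi
      exact ⟨i, mem_union_left _ hi.1, by simp [hi.1, hi.2]⟩
    · rw [hfil, sum_union (disjoint_of_subset_left (filter_subset _ _)
        (disjoint_of_subset_right (filter_subset _ _) hd))]
      have h1 := hB ⟨k, hk⟩
      have h2 : ∑ i ∈ D with h' i = (⟨k, hk⟩ : Fin 3), b i = (c ⟨k, hk⟩ : ZMod m) := by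
        rw [← hD ⟨k, hk⟩]
        push_cast
        refine sum_congr rfl fun i _ => ?_
        rw [ZMod.natCast_zmod_val]
      rw [h2, add_comm]
      exact h1

/-- the result of the splitting -/
lemma good_bad {D : Finset ι} (h0 : ∀ i ∈ D, b i ≠ 0) (hd : Disjoint D B)
    {h : ι → Fin 3} {c : Fin 3 → ℕ}
    (hc : ∀ j, 1 ≤ c j) (hcm : c 0 + c 1 + c 2 = m)
    (hB : ∀ j, ∑ i ∈ B with h i = j, b i + (c j : ZMod m) = 0)
    (hD : ∑ i ∈ D, (b i).val = m) (hD2 : m + 2 ≤ 2 * #D) (hns : ¬ Split b (D ∪ B) 3) :
    ∃ i ∈ D, ∀ j, c j < (b i).val := by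
  by_contra hcon
  push Not at hcon
  obtain ⟨h', hh'⟩ := split3 (fun i => (b i).val) #D D c rfl (fun i hi => by
    rw [Nat.one_le_iff_ne_zero, Ne, ZMod.val_eq_zero]
    exact h0 i hi) (by rw [hD, hcm]) (by rw [hD]; exact hD2) hcon
  exact hns (glue hd hc hB hh')

end Pool.Agent.J4H42.ZS
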