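import Pool.Agent.J4H42.ZS.Part
import Pool.Agent.J4H42.ZS.Three

/-!
# Recombination of two long blocks of weight one
-/

set_option autoImplicit false
set_option linter.unusedSectionVars false

namespace Pool.Agent.J4H42.ZS

open Finset Pool.Agent.T2H37.CI

variable {m : ℕ} {ι : Type*} [DecidableEq ι] [NeZero m] {b : ι → ZMod m} {B : Finset ι}

lemma one_le_val {i : ι} (h : b i ≠ 0) : 1 ≤ (b i).val := by
  rw [Nat.one_le_iff_ne_zero, Ne, ZMod.val_eq_zero]
  exact h

/-- the number of ones in a long sequence of weight one with a given item -/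
lemma ones_count {D : Finset ι} (h0 : ∀ i ∈ D, b i ≠ 0) (hD : ∑ i ∈ D, (b i).val = m)
    (hD2 : m + 2 ≤ 2 * #D) {i : ι} (hi : i ∈ D) :
    (b i).val ≤ #((D.erase i).filter fun k => (b k).val = 1) := by
  have h1 : ∑ k ∈ D, (b k).val = ∑ k ∈ D.erase i, (b k).val + (b i).val :=
    (sum_erase_add _ _ hi).symm
  have h2 : ∑ k ∈ D.erase i, 2 ≤ ∑ k ∈ D.erase i, ((b k).val + if (b k).val = 1 then 1 else 0) := by
    refine sum_le_sum fun k hk => ?_
    have := one_le_val (h0 k (mem_of_mem_erase hk))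
    split_ifs <;> omega
  rw [sum_const, smul_eq_mul, sum_add_distrib, ← card_filter, card_erase_of_mem hi] at h2
  omega

/-- the other items are small -/
lemma other_le {D : Finset ι} (h0 : ∀ i ∈ D, b i ≠ 0) (hD : ∑ i ∈ D, (b i).val = m)
    {i k : ι} (hi : i ∈ D) (hk : k ∈ D.erase i) :
    (b k).val + (b i).val + #D ≤ m + 2 := by
  have h1 : ∑ k ∈ D, (b k).val = ∑ k ∈ D.erase i, (b k).val + (b i).val :=
    (sum_erase_add _ _ hi).symm
  have h2 : ∑ l ∈ D.erase i, (b l).val = ∑ l ∈ (D.erase i).erase k, (b l).val + (b k).val :=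
    (sum_erase_add _ _ hk).symm
  have h3 : #((D.erase i).erase k) ≤ ∑ l ∈ (D.erase i).erase k, (b l).val := by
    rw [card_eq_sum_ones]
    exact sum_le_sum fun l hl => one_le_val (h0 l (mem_of_mem_erase (mem_of_mem_erase hl)))
  rw [card_erase_of_mem hk, card_erase_of_mem hi] at h3
  have h4 : 2 ≤ #D := by
    have : 0 < #(D.erase i) := card_pos.2 ⟨k, hk⟩
    rw [card_erase_of_mem hi] at this
    omega
  omega

lemma item_le {D : Finset ι} (h0 : ∀ i ∈ D, b i ≠ 0) (hD : ∑ i ∈ D, (b i).val = m)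
    {i : ι} (hi : i ∈ D) : (b i).val + #D ≤ m + 1 := by
  have h1 : ∑ k ∈ D, (b k).val = ∑ k ∈ D.erase i, (b k).val + (b i).val :=
    (sum_erase_add _ _ hi).symm
  have h3 : #(D.erase i) ≤ ∑ l ∈ D.erase i, (b l).val := by
    rw [card_eq_sum_ones]
    exact sum_le_sum fun l hl => one_le_val (h0 l (mem_of_mem_erase hl))
  rw [card_erase_of_mem hi] at h3
  have : 0 < #D := card_pos.2 ⟨i, hi⟩
  omega

/-- Two long blocks of weight one with large items, and a bad atom: the union splits into four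
blocks. -/
theorem pair {B₁ B₂ : Finset ι} (d12 : Disjoint B₁ B₂) (d : Disjoint (B₁ ∪ B₂) B)
    (h0 : ∀ i ∈ B₁ ∪ B₂, b i ≠ 0)
    (s1 : ∑ i ∈ B₁, (b i).val = m) (s2 : ∑ i ∈ B₂, (b i).val = m)
    (l1 : m + 2 ≤ 2 * #B₁) (l2 : m + 2 ≤ 2 * #B₂)
    {h : ι → Fin 3} {c : Fin 3 → ℕ}
    (hc : ∀ j, 1 ≤ c j) (hcm : c 0 + c 1 + c 2 = m)
    (hB : ∀ j, ∑ i ∈ B with h i = j, b i + (c j : ZMod m) = 0)
    (hi1 : ∃ i ∈ B₁, ∀ j, c j < (b i).val) (hi2 : ∃ i ∈ B₂, ∀ j, c j < (b i).val) :
    Split b (B₁ ∪ B₂ ∪ B) 4 := by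
  obtain ⟨i, hi, hic⟩ := hi1
  obtain ⟨k, hk, hkc⟩ := hi2
  -- the largest c
  obtain ⟨j, hj⟩ : ∃ j, ∀ l, c l ≤ c j := Finite.exists_max c
  have hX : m ≤ 3 * c j := by
    have h1 := hj 0
    have h2 := hj 1
    have h3 := hj 2
    omega
  have hic' := hic j
  have hkc' := hkc j
  have h01 : ∀ i ∈ B₁, b i ≠ 0 := fun i hi => h0 i (mem_union_left _ hi)
  have h02 : ∀ i ∈ B₂, b i ≠ 0 := fun i hi => h0 i (mem_union_right _ hi)
  have u1 := ones_count h01 s1 l1 hi
  have u2 := ones_count h02 s2 l2 hk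
  have v1 := item_le h01 s1 hi
  have v2 := item_le h02 s2 hk
  set O₁ := (B₁.erase i).filter fun k => (b k).val = 1 with hO₁
  set O₂ := (B₂.erase k).filter fun k => (b k).val = 1 with hO₂
  have hO₁B : O₁ ⊆ B₁ := (filter_subset _ _).trans (erase_subset _ _)
  have hO₂B : O₂ ⊆ B₂ := (filter_subset _ _).trans (erase_subset _ _)
  have hdO : Disjoint O₁ O₂ := disjoint_of_subset_left hO₁B (disjoint_of_subset_right hO₂B d12)
  obtain ⟨O, hO, hOc⟩ := exists_subset_card_eq (s := O₁ ∪ O₂)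
    (n := m - (b i).val - (b k).val) (by rw [card_union_of_disjoint hdO]; omega)
  have hikne : i ≠ k := by
    rintro rfl
    exact disjoint_left.1 d12 hi hk
  have hiO : i ∉ O := by
    intro h'
    rcases mem_union.1 (hO h') with h' | h'
    · simp [hO₁] at h'
    · exact disjoint_left.1 d12 hi (hO₂B h')
  have hkO : k ∉ O := by
    intro h'
    rcases mem_union.1 (hO h') with h' | h'
    · exact disjoint_left.1 d12 (hO₁B h') hk
    · simp [hO₂] at h'
  have hOone : ∀ l ∈ O, (b l).val = 1 := by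
    intro l hl
    rcases mem_union.1 (hO hl) with h' | h'
    · exact (mem_filter.1 h').2
    · exact (mem_filter.1 h').2
  have hOB : O ⊆ B₁ ∪ B₂ := hO.trans (union_subset_union hO₁B hO₂B)
  set D' := insert i (insert k O) with hD'
  have hD'B : D' ⊆ B₁ ∪ B₂ := by
    rw [hD', insert_subset_iff, insert_subset_iff]
    exact ⟨mem_union_left _ hi, mem_union_right _ hk, hOB⟩
  have hikO : i ∉ insert k O := by simp [hikne, hiO]
  have hsD' : ∑ l ∈ D', (b l).val = m := by
    rw [hD', sum_insert hikO, sum_insert hkO, sum_congr rfl hOone, sum_const, hOc, smul_eq_mul]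
    omega
  have hcD' : #D' = m - (b i).val - (b k).val + 2 := by
    rw [hD', card_insert_of_notMem hikO, card_insert_of_notMem hkO, hOc]
  set D := (B₁ ∪ B₂) \ D' with hD
  have hs12 : ∑ l ∈ B₁ ∪ B₂, (b l).val = 2 * m := by
    rw [sum_union d12, s1, s2]
    ring
  have hsD : ∑ l ∈ D, (b l).val = m := by
    have := sum_sdiff (f := fun l => (b l).val) hD'B
    rw [hs12, hsD'] at this
    change ∑ l ∈ D, (b l).val + m = 2 * m at this
    omega
  have hcD : #D = #B₁ + #B₂ - #D' := by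
    rw [hD, card_sdiff_of_subset hD'B, card_union_of_disjoint d12]
  have hle : ∀ l ∈ D, ∃ j, (b l).val ≤ c j := by
    intro l hl
    refine ⟨j, ?_⟩
    rw [hD, mem_sdiff, mem_union, hD', mem_insert, mem_insert] at hl
    push Not at hl
    rcases hl.1 with h' | h'
    · have := other_le h01 s1 hi (mem_erase.2 ⟨hl.2.1, h'⟩)
      omega
    · have := other_le h02 s2 hk (mem_erase.2 ⟨hl.2.2.1, h'⟩)
      omega
  have hDB : Disjoint D B := disjoint_of_subset_left sdiff_subset d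
  have hsp : Split b (D ∪ B) 3 := by
    by_contra hns
    obtain ⟨l, hl, hl'⟩ := good_bad (D := D) (fun l hl => h0 l (sdiff_subset hl)) hDB hc hcm hB hsD
      (by omega) hns
    obtain ⟨j', hj'⟩ := hle l hl
    exact absurd (hl' j') (not_lt.2 hj')
  have hz : ∑ l ∈ D', b l = 0 := by
    have h1 : ((∑ l ∈ D', (b l).val : ℕ) : ZMod m) = 0 := by rw [hsD', ZMod.natCast_self]
    push_cast at h1
    rw [← h1]
    refine sum_congr rfl fun l _ => ?_
    rw [ZMod.natCast_zmod_val]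
  have h1 := split_union (b := b) (S := D') (T := D ∪ B) (by
    rw [disjoint_union_right]
    exact ⟨disjoint_sdiff, disjoint_of_subset_left hD'B d⟩)
    (split_one ⟨i, mem_insert_self _ _⟩ hz) hsp
  have h2 : D' ∪ (D ∪ B) = B₁ ∪ B₂ ∪ B := by
    rw [← union_assoc, hD, union_sdiff_of_subset hD'B]
  rwa [h2] at h1

end Pool.Agent.J4H42.ZS
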