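import Pool.Agent.J4H42.ZS.Wrap
import Pool.Agent.T2H37.CI.Comb

/-!
# Partitions into zero-sum blocks
-/

set_option autoImplicit false
set_option linter.unusedSectionVars false

namespace Pool.Agent.J4H42.ZS

open Finset Pool.Agent.T2H37.CI

variable {m : ℕ} {ι : Type*} [DecidableEq ι] {b : ι → ZMod m}

/-- the partition given by a function -/
def IsPart (b : ι → ZMod m) (S : Finset ι) (q : ℕ) (g : ι → ℕ) : Prop :=
  (∀ i ∈ S, g i < q) ∧ ∀ B < q, (∃ i ∈ S, g i = B) ∧ ∑ i ∈ S with g i = B, b i = 0

lemma split_one {S : Finset ι} (hne : S.Nonempty) (h : ∑ i ∈ S, b i = 0) : Split b S 1 := by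
  have h1 := Split.cons (b := b) (S := S) (T := S) (q := 0) (Subset.refl _) hne h
    (by rw [sdiff_self]; exact Split.zero b)
  simpa using h1

lemma split_union {S T : Finset ι} {p q : ℕ} (hd : Disjoint S T) (hS : Split b S p)
    (hT : Split b T q) : Split b (S ∪ T) (p + q) := by
  obtain ⟨g, hg1, hg2⟩ := hS
  obtain ⟨k, hk1, hk2⟩ := hT
  refine ⟨fun i => if i ∈ S then g i else p + k i, ?_, ?_⟩
  · intro i hi
    by_cases hiS : i ∈ S
    · simp only [hiS, if_true]
      have := hg1 i hiS
      omega
    · simp only [hiS, if_false]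
      have := hk1 i ((mem_union.1 hi).resolve_left hiS)
      omega
  · intro B hB
    rcases lt_or_ge B p with h | h
    · obtain ⟨⟨i, hi, hgi⟩, hs⟩ := hg2 B h
      refine ⟨⟨i, mem_union_left _ hi, by simp [hi, hgi]⟩, ?_⟩
      rw [← hs]
      refine sum_congr ?_ fun _ _ => rfl
      ext j
      simp only [mem_filter, mem_union]
      constructor
      · rintro ⟨h1, h2⟩
        by_cases hjS : j ∈ S
        · simp only [hjS, if_true] at h2
          exact ⟨hjS, h2⟩
        · simp only [hjS, if_false] at h2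
          omega
      · rintro ⟨h1, h2⟩
        exact ⟨Or.inl h1, by simp [h1, h2]⟩
    · obtain ⟨⟨i, hi, hgi⟩, hs⟩ := hk2 (B - p) (by omega)
      have hiS : i ∉ S := fun h' => disjoint_left.1 hd h' hi
      refine ⟨⟨i, mem_union_right _ hi, ?_⟩, ?_⟩
      · simp only [hiS, if_false, hgi]
        omega
      rw [← hs]
      refine sum_congr ?_ fun _ _ => rfl
      ext j
      simp only [mem_filter, mem_union]
      constructor
      · rintro ⟨h1, h2⟩
        by_cases hjS : j ∈ S
        · simp only [hjS, if_true] at h2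
          have := hg1 j hjS
          omega
        · simp only [hjS, if_false] at h2
          exact ⟨h1.resolve_left hjS, by omega⟩
      · rintro ⟨h1, h2⟩
        have hjS : j ∉ S := fun h' => disjoint_left.1 hd h' h1
        refine ⟨Or.inr h1, ?_⟩
        simp only [hjS, if_false, h2]
        omega

lemma Split.sum_zero {S : Finset ι} {q : ℕ} (h : Split b S q) : ∑ i ∈ S, b i = 0 := by
  obtain ⟨g, hg1, hg2⟩ := h
  rw [← sum_fiberwise_of_maps_to (t := range q) (g := g) (fun i hi => mem_range.2 (hg1 i hi))]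
  exact sum_eq_zero fun j hj => (hg2 j (mem_range.1 hj)).2

/-- a non-atom splits -/
lemma split_two_or_atom {S : Finset ι} (hne : S.Nonempty) (h : ∑ i ∈ S, b i = 0) :
    Split b S 2 ∨ Atom b S := by
  by_cases hat : Atom b S
  · exact Or.inr hat
  · left
    have h1 : ∃ T ⊆ S, T.Nonempty ∧ ∑ i ∈ T, b i = 0 ∧ T ≠ S := by
      by_contra hcon
      push Not at hcon
      exact hat ⟨hne, h, fun T hT hTn hT0 => hcon T hT hTn hT0⟩
    obtain ⟨T, hT, hTn, hT0, hTS⟩ := h1
    have h2 := sum_sdiff (f := b) hT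
    rw [hT0, add_zero, h] at h2
    have hne2 : (S \ T).Nonempty := by
      rw [nonempty_iff_ne_empty]
      intro h3
      rw [sdiff_eq_empty_iff_subset] at h3
      exact hTS (Subset.antisymm hT h3)
    have h3 := split_union (b := b) sdiff_disjoint (split_one hne2 h2) (split_one hTn hT0)
    rwa [sdiff_union_of_subset hT] at h3

/-- the union of the blocks in `J` -/
def blks (S : Finset ι) (g : ι → ℕ) (J : Finset ℕ) : Finset ι := S.filter fun i => g i ∈ J

lemma blks_sub (S : Finset ι) (g : ι → ℕ) (J : Finset ℕ) : blks S g J ⊆ S := filter_subset _ _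

lemma blks_disj {S : Finset ι} {g : ι → ℕ} {J K : Finset ℕ} (h : Disjoint J K) :
    Disjoint (blks S g J) (blks S g K) := by
  rw [disjoint_left]
  intro i hi hi'
  exact disjoint_left.1 h (mem_filter.1 hi).2 (mem_filter.1 hi').2

lemma blks_union (S : Finset ι) (g : ι → ℕ) (J K : Finset ℕ) :
    blks S g (J ∪ K) = blks S g J ∪ blks S g K := by
  ext i
  simp only [blks, mem_filter, mem_union]
  tauto

lemma IsPart.blks_range {S : Finset ι} {q : ℕ} {g : ι → ℕ} (h : IsPart b S q g) :
    blks S g (range q) = S := by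
  rw [blks, filter_eq_self]
  intro i hi
  exact mem_range.2 (h.1 i hi)

lemma IsPart.single {S : Finset ι} {q : ℕ} {g : ι → ℕ} (h : IsPart b S q g) {j : ℕ} (hj : j < q) :
    (blks S g {j}).Nonempty ∧ ∑ i ∈ blks S g {j}, b i = 0 := by
  obtain ⟨⟨i, hi, hgi⟩, hs⟩ := h.2 j hj
  refine ⟨⟨i, mem_filter.2 ⟨hi, by simp [hgi]⟩⟩, ?_⟩
  rw [← hs]
  refine sum_congr ?_ fun _ _ => rfl
  ext i
  simp [blks]

lemma IsPart.split {S : Finset ι} {q : ℕ} {g : ι → ℕ} (h : IsPart b S q g) :
    ∀ J : Finset ℕ, J ⊆ range q → Split b (blks S g J) #J := by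
  intro J
  induction J using Finset.induction_on with
  | empty =>
    intro _
    have : blks S g ∅ = ∅ := by simp [blks]
    rw [this, card_empty]
    exact Split.zero b
  | insert j J hj ih =>
    intro hJ
    rw [insert_subset_iff] at hJ
    have h1 := h.single (mem_range.1 hJ.1)
    rw [insert_eq, blks_union, card_union_of_disjoint (disjoint_singleton_left.2 hj),
      card_singleton]
    exact split_union (blks_disj (disjoint_singleton_left.2 hj)) (split_one h1.1 h1.2) (ih hJ.2)

/-- Replacing some of the blocks. -/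
lemma IsPart.replace {S P T : Finset ι} {p q : ℕ} {g : ι → ℕ} (h : IsPart b S q g)
    (hP : Disjoint P S) (J : Finset ℕ) (hJ : J ⊆ range q) (hT : T ⊆ P ∪ blks S g J)
    (hs : Split b ((P ∪ blks S g J) \ T) p) :
    Split b ((P ∪ S) \ T) (p + (q - #J)) := by
  have h1 := h.split (range q \ J) sdiff_subset
  rw [card_sdiff_of_subset hJ, card_range] at h1
  have hd : Disjoint (P ∪ blks S g J) (blks S g (range q \ J)) := by
    rw [disjoint_union_left]
    exact ⟨disjoint_of_subset_right (blks_sub _ _ _) hP, blks_disj disjoint_sdiff⟩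
  have h2 := split_union (disjoint_of_subset_left sdiff_subset hd) hs h1
  have h3 : (P ∪ blks S g J) \ T ∪ blks S g (range q \ J) = (P ∪ S) \ T := by
    have h4 : P ∪ S = (P ∪ blks S g J) ∪ blks S g (range q \ J) := by
      rw [union_assoc, ← blks_union, union_sdiff_of_subset hJ, h.blks_range]
    rw [h4, union_sdiff_distrib (P ∪ blks S g J),
      sdiff_eq_self_of_disjoint (disjoint_of_subset_right hT hd.symm)]
  rwa [h3] at h2

/-- the number of blocks is locally maximal -/
lemma IsPart.local_max {S P : Finset ι} {p q r : ℕ} {g : ι → ℕ} (h : IsPart b S q g)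
    (hP : Disjoint P S) (hns : ¬ Split b (P ∪ S) (q + r)) (J : Finset ℕ) (hJ : J ⊆ range q)
    (hp : p = #J + r) : ¬ Split b (P ∪ blks S g J) p := by
  intro hs
  apply hns
  have h1 := h.replace hP J hJ (empty_subset _) (p := p) (by rwa [sdiff_empty])
  rw [sdiff_empty] at h1
  have h2 : #J ≤ q := by
    have := card_le_card hJ
    rwa [card_range] at this
  have h3 : p + (q - #J) = q + r := by omega
  rwa [h3] at h1

end Pool.Agent.J4H42.ZS
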