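import Mathlib

/-!
# Atoms of weight at least two

A minimal zero-sum sequence `B` in `ZMod m` is the union of three parts with sums `-c 0`, `-c 1`,
`-c 2`, for positive integers `c j` with sum `m`, unless the sum of the representatives of its
elements is `m`. Moreover one of the `c j` can be taken to be large.
-/

set_option autoImplicit false
set_option linter.unusedSectionVars false

namespace Pool.Agent.J4H42.ZS

open Finset

variable {m : ℕ} {ι : Type*} [DecidableEq ι]

/-- a minimal zero-sum sequence -/
structure Atom (b : ι → ZMod m) (B : Finset ι) : Prop where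
  ne : B.Nonempty
  sum : ∑ i ∈ B, b i = 0
  min : ∀ T ⊆ B, T.Nonempty → ∑ i ∈ T, b i = 0 → T = B

/-- the representative of the sum -/
def sg (b : ι → ZMod m) (Z : Finset ι) : ℕ := (∑ i ∈ Z, b i).val

variable [NeZero m] {b : ι → ZMod m} {B : Finset ι}

lemma sg_lt (b : ι → ZMod m) (Z : Finset ι) : sg b Z < m := ZMod.val_lt _

lemma sg_empty (b : ι → ZMod m) : sg b ∅ = 0 := by simp [sg]

lemma sg_single (b : ι → ZMod m) (i : ι) : sg b {i} = (b i).val := by simp [sg]

lemma sg_union {P Q : Finset ι} (h : Disjoint P Q) :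
    (sg b P + sg b Q < m ∧ sg b (P ∪ Q) = sg b P + sg b Q) ∨
      (m ≤ sg b P + sg b Q ∧ sg b (P ∪ Q) + m = sg b P + sg b Q) := by
  unfold sg
  rw [sum_union h]
  rcases lt_or_ge ((∑ i ∈ P, b i).val + (∑ i ∈ Q, b i).val) m with h1 | h1
  · left
    exact ⟨h1, ZMod.val_add_of_lt h1⟩
  · right
    exact ⟨h1, (ZMod.val_add_val_of_le h1).symm⟩

lemma Atom.sg_pos (hB : Atom b B) {Z : Finset ι} (hZ : Z ⊆ B) (hne : Z.Nonempty) (hZB : Z ≠ B) :
    0 < sg b Z := by
  rw [Nat.pos_iff_ne_zero]
  intro h
  unfold sg at h
  rw [ZMod.val_eq_zero] at h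
  exact hZB (hB.min Z hZ hne h)

lemma Atom.sg_compl (hB : Atom b B) {Z : Finset ι} (hZ : Z ⊆ B) (hne : Z.Nonempty) (hZB : Z ≠ B) :
    sg b (B \ Z) + sg b Z = m := by
  have h1 := sg_union (b := b) (P := B \ Z) (Q := Z) sdiff_disjoint
  have h2 := hB.sg_pos hZ hne hZB
  rw [sdiff_union_of_subset hZ] at h1
  have h3 : sg b B = 0 := by unfold sg; rw [hB.sum]; simp
  rw [h3] at h1
  omega

/-- The existence of a suitable partition into three parts. -/
theorem Atom.exists_wrap (hB : Atom b B) (hB2 : 2 ≤ #B) {t : ℕ} (ht : t + 1 ≤ #B)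
    (ht2 : 2 * t + 1 ≤ m)
    (hw : ∑ i ∈ B, (b i).val ≠ m) :
    ∃ P Q : Finset ι, P ⊆ B ∧ Q ⊆ B ∧ P.Nonempty ∧ Q.Nonempty ∧ Disjoint P Q ∧ P ∪ Q ≠ B ∧
      m ≤ sg b P + sg b Q ∧ (sg b P + t ≤ m ∨ sg b Q + t ≤ m ∨ m + t ≤ sg b P + sg b Q) := by
  by_contra hcon
  have H : ∀ P Q : Finset ι, P ⊆ B → Q ⊆ B → P.Nonempty → Q.Nonempty → Disjoint P Q →
      P ∪ Q ≠ B → m ≤ sg b P + sg b Q →
        m < sg b P + t ∧ m < sg b Q + t ∧ sg b P + sg b Q < m + t := by
    intro P Q hP hQ hP' hQ' hd hne hle
    by_contra h
    apply hcon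
    refine ⟨P, Q, hP, hQ, hP', hQ', hd, hne, hle, ?_⟩
    by_contra h'
    push Not at h'
    exact h ⟨by omega, by omega, by omega⟩
  clear hcon
  set L := B.filter fun i => m < (b i).val + t with hL
  set V := B.filter fun i => ¬ m < (b i).val + t with hV
  have hLB : L ⊆ B := filter_subset _ _
  have hVB : V ⊆ B := filter_subset _ _
  have hLV : Disjoint L V := disjoint_filter_filter_not _ _ _
  have hLVB : L ∪ V = B := filter_union_filter_not_eq _ _
  -- the small elements never wrap
  have h1 : ∀ i ∈ V, ∀ Z ⊆ B, i ∉ Z → insert i Z ≠ B → sg b (insert i Z) = sg b Z + (b i).val := by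
    intro i hi Z hZ hiZ hne
    rcases Z.eq_empty_or_nonempty with rfl | hZne
    · rw [sg_empty, zero_add]
      exact sg_single b i
    rw [insert_eq, union_comm] at hne ⊢
    have hd : Disjoint Z {i} := disjoint_singleton_right.2 hiZ
    have hi' := (mem_filter.1 hi)
    rcases sg_union (b := b) hd with h | h
    · rw [h.2, sg_single]
    · exfalso
      have h2 := H Z {i} hZ (singleton_subset_iff.2 hi'.1) hZne (singleton_nonempty i) hd hne h.1
      rw [sg_single] at h2
      exact hi'.2 h2.2.1
  have h2 : ∀ V' ⊆ V, ∀ Z ⊆ B, Disjoint Z V' → Z ∪ V' ≠ B →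
      sg b (Z ∪ V') = sg b Z + ∑ i ∈ V', (b i).val := by
    intro V'
    induction V' using Finset.induction_on with
    | empty => intro _ Z _ _ _; simp
    | insert i V' hi ih =>
      intro hV' Z hZ hd hne
      rw [insert_subset_iff] at hV'
      rw [disjoint_insert_right] at hd
      have hZV : Z ∪ V' ⊆ B := union_subset hZ (hV'.2.trans hVB)
      have hne' : Z ∪ V' ≠ B := by
        intro h
        rw [union_insert, h] at hne
        exact hne (insert_eq_self.2 (hVB hV'.1))
      rw [union_insert] at hne ⊢
      rw [h1 i hV'.1 (Z ∪ V') hZV (by simp [hd.1, hi]) hne, ih hV'.2 Z hZ hd.2 hne', sum_insert hi]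
      ring
  -- the large elements
  have h3 : ∀ n : ℕ, ∀ U ⊆ L, U ≠ B → #U = n →
      sg b U + m * (n / 2) = ∑ i ∈ U, (b i).val ∧ (n % 2 = 0 → n ≠ 0 → sg b U < t) := by
    intro n
    induction n with
    | zero =>
      intro U _ _ hU
      rw [card_eq_zero] at hU
      subst hU
      simp [sg_empty]
    | succ n ih =>
      intro U hU hUB hUn
      obtain ⟨i, hi⟩ : U.Nonempty := card_pos.1 (by omega)
      have hU'n : #(U.erase i) = n := by rw [card_erase_of_mem hi, hUn]; rfl
      have hU' : U.erase i ⊆ L := (erase_subset _ _).trans hU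
      have hU'B : U.erase i ≠ B := by
        intro h
        have : i ∈ U.erase i := by rw [h]; exact hLB (hU hi)
        simp at this
      obtain ⟨ih1, ih2⟩ := ih (U.erase i) hU' hU'B hU'n
      have hy := (mem_filter.1 (hU hi)).2
      have hsum : ∑ j ∈ U, (b j).val = ∑ j ∈ U.erase i, (b j).val + (b i).val :=
        (sum_erase_add _ _ hi).symm
      have hd : Disjoint (U.erase i) {i} := by simp
      have hun : U.erase i ∪ {i} = U := by
        rw [union_comm, ← insert_eq, insert_erase hi]
      rcases Nat.eq_zero_or_pos n with h0 | h0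
      · subst h0
        rw [card_eq_zero] at hU'n
        have hUi : U = {i} := by rw [← hun, hU'n, empty_union]
        rw [hUi, sg_single]
        simp
      have hne' : (U.erase i).Nonempty := card_pos.1 (by omega)
      have hsg := sg_union (b := b) hd
      have hH := H (U.erase i) {i} (hU'.trans hLB) (singleton_subset_iff.2 (hLB (hU hi))) hne'
        (singleton_nonempty i) hd (by rwa [hun])
      rw [hun, sg_single] at hsg
      rw [sg_single] at hH
      rcases Nat.even_or_odd n with he | ho
      · -- the new set is odd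
        obtain ⟨k, hk⟩ := he
        have h4 := ih2 (by omega) (by omega)
        have h5 : ¬ m ≤ sg b (U.erase i) + (b i).val := by
          intro h
          have := hH h
          omega
        have h6 : (n + 1) / 2 = n / 2 := by omega
        rw [h6, hsum, ← ih1]
        refine ⟨by omega, fun h => by omega⟩
      · obtain ⟨k, hk⟩ := ho
        have h6 : (n + 1) / 2 = k + 1 := by omega
        have h7 : n / 2 = k := by omega
        rw [h7] at ih1
        have h8 : n * (m + 1) ≤ 2 * ∑ j ∈ U.erase i, (b j).val := by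
          rw [mul_sum, ← hU'n, ← smul_eq_mul, ← sum_const]
          refine sum_le_sum fun j hj => ?_
          have := (mem_filter.1 (hU' hj)).2
          omega
        rw [← ih1, hk] at h8
        have h9 : m ≤ sg b (U.erase i) + (b i).val := by
          have : (2 * k + 1) * (m + 1) = 2 * (m * k) + 2 * k + m + 1 := by ring
          rw [this] at h8
          omega
        rw [h6, hsum, ← ih1]
        have h10 := hH h9
        have h11 : m * (k + 1) = m * k + m := by ring
        rw [h11]
        refine ⟨by omega, fun _ _ => by omega⟩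
  -- the end
  have htot : ∑ i ∈ B, (b i).val = ∑ i ∈ L, (b i).val + ∑ i ∈ V, (b i).val := by
    rw [← hLVB, sum_union hLV]
  rcases L.eq_empty_or_nonempty with hL0 | ⟨i, hi⟩
  · have hVe : V = B := by rw [← hLVB, hL0, empty_union]
    obtain ⟨i, hi⟩ := hB.ne
    have hiV : i ∈ V := by rw [hVe]; exact hi
    have hne : (B.erase i).Nonempty := card_pos.1 (by rw [card_erase_of_mem hi]; omega)
    have hni : B.erase i ≠ B := by
      intro h
      have : i ∈ B.erase i := by rw [h]; exact hi
      simp at this
    have h4 := h2 (V.erase i) (erase_subset _ _) ∅ (empty_subset _) (disjoint_empty_left _) (by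
      rwa [empty_union, hVe])
    rw [empty_union, sg_empty, zero_add, hVe] at h4
    have h5 := hB.sg_compl (erase_subset i B) hne hni
    rw [sdiff_erase_self hi, sg_single] at h5
    apply hw
    rw [← sum_erase_add _ _ hi, ← h4]
    omega
  · have hiB := hLB hi
    have hne : (B.erase i).Nonempty := card_pos.1 (by rw [card_erase_of_mem hiB]; omega)
    have hni : B.erase i ≠ B := by
      intro h
      have : i ∈ B.erase i := by rw [h]; exact hiB
      simp at this
    have hiV : i ∉ V := fun h => (disjoint_left.1 hLV) hi h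
    have hUV : L.erase i ∪ V = B.erase i := by
      rw [← hLVB, erase_union_distrib, erase_eq_of_notMem hiV]
    have h4 := h2 V (Subset.refl _) (L.erase i) ((erase_subset _ _).trans hLB)
      (disjoint_of_subset_left (erase_subset _ _) hLV) (by rwa [hUV])
    have h5 := hB.sg_compl (erase_subset i B) hne hni
    rw [sdiff_erase_self hiB, sg_single] at h5
    rw [hUV] at h4
    obtain ⟨h6, _⟩ := h3 #(L.erase i) (L.erase i) (erase_subset _ _) (by
      intro h
      have : i ∈ L.erase i := by rw [h]; exact hiB
      simp at this) rfl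
    have hLp : 0 < #L := card_pos.2 ⟨i, hi⟩
    rw [card_erase_of_mem hi] at h6
    have h7 : ∑ j ∈ L, (b j).val = ∑ j ∈ L.erase i, (b j).val + (b i).val :=
      (sum_erase_add _ _ hi).symm
    obtain ⟨j, hj⟩ : ∃ j, j = (#L - 1) / 2 := ⟨_, rfl⟩
    rw [← hj] at h6
    have hW : ∑ i ∈ B, (b i).val = m + m * j := by
      rw [htot, h7, ← h6]
      omega
    rcases Nat.eq_zero_or_pos j with hj0 | hj0
    · apply hw
      rw [hW, hj0]
      simp
    have hcard : #B = #L + #V := by rw [← hLVB, card_union_of_disjoint hLV]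
    have h8 : #L * (m + 1) ≤ ∑ j ∈ L, (b j).val + #L * t := by
      have : ∑ j ∈ L, (m + 1) ≤ ∑ j ∈ L, ((b j).val + t) := by
        refine sum_le_sum fun j hj => ?_
        have := (mem_filter.1 hj).2
        omega
      rw [sum_const, smul_eq_mul, sum_add_distrib, sum_const, smul_eq_mul] at this
      exact this
    have h9 : #V ≤ ∑ j ∈ V, (b j).val := by
      rw [card_eq_sum_ones]
      refine sum_le_sum fun j hj => ?_
      have h10 := hB.sg_pos (Z := {j}) (singleton_subset_iff.2 (hVB hj)) (singleton_nonempty j) (by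
        intro h
        rw [← h, card_singleton] at hB2
        omega)
      rwa [sg_single] at h10
    rw [htot] at hW
    have h11 : 2 * j * t + j ≤ j * m := by
      have := Nat.mul_le_mul_left j ht2
      nlinarith
    have hk : #L = 2 * j + 1 ∨ #L = 2 * j + 2 := by omega
    rcases hk with hk | hk
    · rw [hk] at h8 hcard
      nlinarith
    · rw [hk] at h8 hcard
      nlinarith

end Pool.Agent.J4H42.ZS
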